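import Pool.Agent.TF.C.Def

/-!
# Block C, (C1): bounded functions are in the class `Carl`
-/

set_option autoImplicit false

namespace Pool.Agent.TF

open MeasureTheory Set Filter Topology Pool.Agent.TO Pool.Agent.TB Pool.Agent.TC Pool.Agent.TP
open scoped ENNReal NNReal Real InnerProductSpace SchwartzMap LineDeriv

/-! ### the derivatives of `F` and `G` -/

/-- `(∂_l F) G`, `∂_y F G` for `l = none` -/
noncomputable def c1U (n : Fin 3) (f γ : V3) : Option (Fin 3) → ℝ → V3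
  | none => fun y => tens n (Yp y f) (Pp y γ)
  | some l => fun y => tens n (Dp l y f) (Pp y γ)

/-- `F ∂_l G`, `F ∂_y G` for `l = none` -/
noncomputable def c1W (n : Fin 3) (f γ : V3) : Option (Fin 3) → ℝ → V3
  | none => fun y => tens n (Pp y f) (Yp y γ)
  | some l => fun y => tens n (Pp y f) (Dp l y γ)

theorem c1_dPD (hs : SG) (hc : Cal) (n j : Fin 3) {y : ℝ} (hy : 0 < y) (f γ : V3) :
    HasDerivAt (fun s => tens n (Pp s f) (Dp j s γ))
      (tens n (Yp y f) (Dp j y γ) + tens n (Pp y f) (DY j y γ)) y :=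
  hc.dP n y hy f (fun s => Dp j s γ) _ (hs.dyd j y hy γ)

theorem c1_dPY (hc : Cal) (n : Fin 3) {y : ℝ} (hy : 0 < y) (f γ : V3) :
    HasDerivAt (fun s => tens n (Pp s f) (Yp s γ))
      (tens n (Yp y f) (Yp y γ) + tens n (Pp y f) (YYp y γ)) y :=
  hc.dP n y hy f (fun s => Yp s γ) _ (deriv_Yp hy γ)

theorem c1_dPP (hc : Cal) (n : Fin 3) {y : ℝ} (hy : 0 < y) (f γ : V3) :
    HasDerivAt (fun s => tens n (Pp s f) (Pp s γ))
      (tens n (Yp y f) (Pp y γ) + tens n (Pp y f) (Yp y γ)) y :=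
  hc.dP n y hy f (fun s => Pp s γ) _ (deriv_Pp hy γ)

theorem c1_dDP (hc : Cal) (n j : Fin 3) {y : ℝ} (hy : 0 < y) (f γ : V3) :
    HasDerivAt (fun s => tens n (Dp j s f) (Pp s γ))
      (tens n (DY j y f) (Pp y γ) + tens n (Dp j y f) (Yp y γ)) y :=
  hc.dD n j y hy f (fun s => Pp s γ) _ (deriv_Pp hy γ)

theorem c1_dYP (hc : Cal) (n : Fin 3) {y : ℝ} (hy : 0 < y) (f γ : V3) :
    HasDerivAt (fun s => tens n (Yp s f) (Pp s γ))
      (tens n (YYp y f) (Pp y γ) + tens n (Yp y f) (Yp y γ)) y :=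
  hc.dY n y hy f (fun s => Pp s γ) _ (deriv_Pp hy γ)

theorem c1_contU (hc : Cal) (n : Fin 3) (f γ : V3) (a : Option (Fin 3)) {y : ℝ} (hy : 0 < y) :
    ContinuousAt (c1U n f γ a) y := by
  cases a with
  | none => exact (c1_dYP hc n hy f γ).continuousAt
  | some l => exact (c1_dDP hc n l hy f γ).continuousAt

theorem c1_contW (hs : SG) (hc : Cal) (n : Fin 3) (f γ : V3) (a : Option (Fin 3)) {y : ℝ}
    (hy : 0 < y) : ContinuousAt (c1W n f γ a) y := by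
  cases a with
  | none => exact (c1_dPY hc n hy f γ).continuousAt
  | some l => exact (c1_dPD hs hc n l hy f γ).continuousAt

/-- `⟨∂_a F ∂_a G, F G⟩ = ⟨F ∂_a G, ∂_a F G⟩` -/
theorem c1_swapD (hc : Cal) (n l : Fin 3) {y : ℝ} (hy : 0 < y) (f γ : V3) :
    ⟪tens n (Dp l y f) (Dp l y γ), tens n (Pp y f) (Pp y γ)⟫_ℝ =
      ⟪tens n (Pp y f) (Dp l y γ), tens n (Dp l y f) (Pp y γ)⟫_ℝ := by
  obtain ⟨B, hB⟩ := hc.bD l y hy f
  obtain ⟨B', hB'⟩ := hc.bP y hy f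
  exact hc.swap n _ B _ B' hB hB' _ _

theorem c1_swapY (hc : Cal) (n : Fin 3) {y : ℝ} (hy : 0 < y) (f γ : V3) :
    ⟪tens n (Yp y f) (Yp y γ), tens n (Pp y f) (Pp y γ)⟫_ℝ =
      ⟪tens n (Pp y f) (Yp y γ), tens n (Yp y f) (Pp y γ)⟫_ℝ := by
  obtain ⟨B, hB⟩ := hc.bY y hy f
  obtain ⟨B', hB'⟩ := hc.bP y hy f
  exact hc.swap n _ B _ B' hB hB' _ _

/-- the integration by parts in space -/
theorem c1_parts (hc : Cal) (n l : Fin 3) {y : ℝ} (hy : 0 < y) (f γ : V3) :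
    ⟪tens n (DDp l l y f) (Pp y γ) + tens n (Dp l y f) (Dp l y γ) +
        (tens n (Dp l y f) (Dp l y γ) + tens n (Pp y f) (DDp l l y γ)),
      tens n (Pp y f) (Pp y γ)⟫_ℝ +
    ‖tens n (Dp l y f) (Pp y γ) + tens n (Pp y f) (Dp l y γ)‖ ^ 2 = 0 := by
  have h1 : ∀ k, IsWeakDeriv k
      (tens n (Dp l y f) (Pp y γ) + tens n (Pp y f) (Dp l y γ))
      (tens n (DDp k l y f) (Pp y γ) + tens n (Dp l y f) (Dp k y γ) +
        (tens n (Dp k y f) (Dp l y γ) + tens n (Pp y f) (DDp k l y γ))) := fun k =>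
    weak_add (hc.wD n k l y hy f _ _ (weak_Pp k hy γ)) (hc.wP n k y hy f _ _ (weak_Dp k l hy γ))
  have h2 : ∀ k, IsWeakDeriv k (tens n (Pp y f) (Pp y γ))
      (tens n (Dp k y f) (Pp y γ) + tens n (Pp y f) (Dp k y γ)) := fun k =>
    hc.wP n k y hy f _ _ (weak_Pp k hy γ)
  have h3 := hc.parts l _ _ _ _ h1 h2
  rw [real_inner_self_eq_norm_sq] at h3
  exact h3

/-- the sum of the integrations by parts -/
theorem c1_parts_sum (hc : Cal) (n : Fin 3) {y : ℝ} (hy : 0 < y) (f γ : V3) :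
    ⟪tens n (YYp y f) (Pp y γ) + tens n (Pp y f) (YYp y γ), tens n (Pp y f) (Pp y γ)⟫_ℝ =
      2 * ∑ l, ⟪tens n (Pp y f) (Dp l y γ), tens n (Dp l y f) (Pp y γ)⟫_ℝ +
      ∑ l, ‖tens n (Dp l y f) (Pp y γ) + tens n (Pp y f) (Dp l y γ)‖ ^ 2 := by
  obtain ⟨B, hB⟩ := hc.bP y hy f
  have e1 : tens n (Pp y f) (YYp y γ) = -∑ l, tens n (Pp y f) (DDp l l y γ) := by
    have h1 : YYp y γ = (-1 : ℝ) • ∑ l, DDp l l y γ := by
      rw [sum_DDp hy γ]; simp
    rw [h1, hc.smulR n _ B hB, hc.sumR n _ B hB, neg_one_smul]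
  have e2 : tens n (YYp y f) (Pp y γ) = -∑ l, tens n (DDp l l y f) (Pp y γ) := by
    obtain ⟨Bg, hBg⟩ := hc.bP y hy γ
    have h1 : YYp y f = (-1 : ℝ) • ∑ l, DDp l l y f := by
      rw [sum_DDp hy f]; simp
    have h2 : ∀ u v : V3, tens n (u + v) (Pp y γ) = tens n u (Pp y γ) + tens n v (Pp y γ) := by
      intro u v
      apply Lp.ext
      filter_upwards [coe_tens_right n (u + v) hBg, coe_tens_right n u hBg,
        coe_tens_right n v hBg, Lp.coeFn_add u v,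
        Lp.coeFn_add (tens n u (Pp y γ)) (tens n v (Pp y γ))] with x h1 h2 h3 h4 h5
      rw [h1, h5, Pi.add_apply, h2, h3, h4, Pi.add_apply, PiLp.add_apply, add_smul]
    have h3 : ∀ (c : ℝ) (u : V3), tens n (c • u) (Pp y γ) = c • tens n u (Pp y γ) := by
      intro c u
      apply Lp.ext
      filter_upwards [coe_tens_right n (c • u) hBg, coe_tens_right n u hBg,
        Lp.coeFn_smul c u, Lp.coeFn_smul c (tens n u (Pp y γ))] with x h1 h2 h3 h4
      rw [h1, h4, Pi.smul_apply, h2, h3, Pi.smul_apply, PiLp.smul_apply, smul_assoc]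
    rw [h1, h3, Fin.sum_univ_three, h2, h2, neg_one_smul, Fin.sum_univ_three]
  have e3 : ∀ l : Fin 3,
      ⟪tens n (DDp l l y f) (Pp y γ) + tens n (Pp y f) (DDp l l y γ),
        tens n (Pp y f) (Pp y γ)⟫_ℝ =
      -(2 * ⟪tens n (Pp y f) (Dp l y γ), tens n (Dp l y f) (Pp y γ)⟫_ℝ) -
      ‖tens n (Dp l y f) (Pp y γ) + tens n (Pp y f) (Dp l y γ)‖ ^ 2 := by
    intro l
    have h1 := c1_parts hc n l hy f γ
    have h2 := c1_swapD hc n l hy f γ
    simp only [inner_add_left] at h1 ⊢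
    rw [h2] at h1
    linarith
  have e4 : tens n (YYp y f) (Pp y γ) + tens n (Pp y f) (YYp y γ) =
      -∑ l, (tens n (DDp l l y f) (Pp y γ) + tens n (Pp y f) (DDp l l y γ)) := by
    rw [e1, e2, Finset.sum_add_distrib]
    abel
  rw [e4, inner_neg_left, sum_inner]
  simp only [e3]
  rw [Finset.sum_sub_distrib, Finset.sum_neg_distrib, ← Finset.mul_sum]
  ring

/-- half the second derivative of `‖F G‖²` -/
noncomputable def c1q (n : Fin 3) (f γ : V3) (y : ℝ) : ℝ :=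
  ∑ a : Option (Fin 3), (‖c1U n f γ a y‖ ^ 2 + ‖c1W n f γ a y‖ ^ 2 +
    4 * ⟪c1W n f γ a y, c1U n f γ a y⟫_ℝ)

theorem c1_second (hc : Cal) (n : Fin 3) {y : ℝ} (hy : 0 < y) (f γ : V3) :
    HasDerivAt (fun s => ⟪tens n (Pp s f) (Pp s γ),
      tens n (Yp s f) (Pp s γ) + tens n (Pp s f) (Yp s γ)⟫_ℝ) (c1q n f γ y) y := by
  have h1 := c1_dPP hc n hy f γ
  have h2 := (c1_dYP hc n hy f γ).add (c1_dPY hc n hy f γ)
  have h3 := h1.inner ℝ h2
  refine h3.congr_deriv ?_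
  have e1 := c1_parts_sum hc n hy f γ
  have e2 := c1_swapY hc n hy f γ
  simp only [Pi.add_apply]
  rw [real_inner_comm] at e2
  have e3 : ⟪tens n (Pp y f) (Pp y γ),
      tens n (YYp y f) (Pp y γ) + tens n (Yp y f) (Yp y γ) +
        (tens n (Yp y f) (Yp y γ) + tens n (Pp y f) (YYp y γ))⟫_ℝ =
      ⟪tens n (YYp y f) (Pp y γ) + tens n (Pp y f) (YYp y γ), tens n (Pp y f) (Pp y γ)⟫_ℝ +
      2 * ⟪tens n (Pp y f) (Yp y γ), tens n (Yp y f) (Pp y γ)⟫_ℝ := by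
    rw [real_inner_comm _ (tens n (Pp y f) (Pp y γ))] at *
    rw [← e2]
    simp only [inner_add_left]
    rw [real_inner_comm (tens n (Pp y f) (Pp y γ)) (tens n (Yp y f) (Yp y γ))]
    ring
  rw [e3, e1, c1q, Fintype.sum_option]
  simp only [c1U, c1W]
  have e4 : ∀ u w : V3, ‖u + w‖ ^ 2 = ‖u‖ ^ 2 + ‖w‖ ^ 2 + 2 * ⟪w, u⟫_ℝ := by
    intro u w
    rw [norm_add_sq_real, real_inner_comm]
    ring
  rw [real_inner_self_eq_norm_sq, e4]
  simp only [e4, Finset.sum_add_distrib, ← Finset.mul_sum]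
  ring

/-! ### the bounds -/

theorem c1_bU (n : Fin 3) (f : V3) {γ : V3} {A : ℝ} (hA : 0 ≤ A) (hγ : Bd γ A) {y : ℝ}
    (hy : 0 < y) : ∑ a : Option (Fin 3), ‖c1U n f γ a y‖ ^ 2 ≤
      A ^ 2 * (∑ j, ‖Dp j y f‖ ^ 2 + ‖Yp y f‖ ^ 2) := by
  have hb := bd_Pp hy hA hγ
  rw [Fintype.sum_option, mul_add, Finset.mul_sum, add_comm]
  apply add_le_add
  · refine Finset.sum_le_sum fun l _ => ?_
    rw [← mul_pow]
    exact pow_le_pow_left₀ (norm_nonneg _) (norm_tens_right_le n _ hb) 2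
  · rw [← mul_pow]
    exact pow_le_pow_left₀ (norm_nonneg _) (norm_tens_right_le n _ hb) 2

theorem c1_q_le (n : Fin 3) (f γ : V3) (y : ℝ) :
    ∑ a : Option (Fin 3), ‖c1W n f γ a y‖ ^ 2 ≤
      2 * c1q n f γ y + 14 * ∑ a : Option (Fin 3), ‖c1U n f γ a y‖ ^ 2 := by
  unfold c1q
  rw [Finset.mul_sum, Finset.mul_sum, ← Finset.sum_add_distrib]
  refine Finset.sum_le_sum fun a _ => ?_
  set u := c1U n f γ a y
  set w := c1W n f γ a y
  have h1 : -(‖w‖ * ‖u‖) ≤ ⟪w, u⟫_ℝ := (abs_le.1 (abs_real_inner_le_norm w u)).1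
  nlinarith [sq_nonneg (‖w‖ - 4 * ‖u‖)]

theorem c1_bX (n : Fin 3) (f : V3) {γ : V3} {A : ℝ} (hA : 0 ≤ A) (hγ : Bd γ A) {y : ℝ}
    (hy : 0 < y) : ‖tens n (Pp y f) (Pp y γ)‖ ≤ A * ‖f‖ :=
  (norm_tens_right_le n _ (bd_Pp hy hA hγ)).trans
    (mul_le_mul_of_nonneg_left (norm_Pp_le hy f) hA)

theorem c1_bX' (n : Fin 3) (f : V3) {γ : V3} {A : ℝ} (hA : 0 ≤ A) (hγ : Bd γ A) {y : ℝ}
    (hy : 0 < y) :
    |y * ⟪tens n (Pp y f) (Pp y γ),
      tens n (Yp y f) (Pp y γ) + tens n (Pp y f) (Yp y γ)⟫_ℝ| ≤ 8 * A ^ 2 * ‖f‖ ^ 2 := by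
  have h1 := c1_bX n f hA hγ hy
  have h2 : ‖tens n (Yp y f) (Pp y γ)‖ ≤ A * (4 / y * ‖f‖) :=
    (norm_tens_right_le n _ (bd_Pp hy hA hγ)).trans
      (mul_le_mul_of_nonneg_left (norm_Yp_le hy f) hA)
  have h3 : ‖tens n (Pp y f) (Yp y γ)‖ ≤ 4 / y * A * ‖f‖ :=
    (norm_tens_right_le n _ (bd_Yp hy hA hγ)).trans
      (mul_le_mul_of_nonneg_left (norm_Pp_le hy f) (by positivity))
  rw [abs_mul, abs_of_pos hy]
  have h4 := abs_real_inner_le_norm (tens n (Pp y f) (Pp y γ))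
    (tens n (Yp y f) (Pp y γ) + tens n (Pp y f) (Yp y γ))
  have h5 := norm_add_le (tens n (Yp y f) (Pp y γ)) (tens n (Pp y f) (Yp y γ))
  calc y * |⟪tens n (Pp y f) (Pp y γ), tens n (Yp y f) (Pp y γ) + tens n (Pp y f) (Yp y γ)⟫_ℝ|
      ≤ y * ((A * ‖f‖) * (A * (4 / y * ‖f‖) + 4 / y * A * ‖f‖)) := by
        apply mul_le_mul_of_nonneg_left _ hy.le
        refine h4.trans ?_
        exact mul_le_mul h1 (h5.trans (add_le_add h2 h3)) (norm_nonneg _) (by positivity)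
    _ = 8 * A ^ 2 * ‖f‖ ^ 2 := by
        field_simp
        ring

theorem c1_main (hs : SG) (hc : Cal) {C : ℝ} (hC : ∀ (f : V3) (a b : ℝ), 0 < a → a ≤ b →
      ∫ y in a..b, y * (∑ j, ‖Dp j y f‖ ^ 2 + ‖Yp y f‖ ^ 2) ≤ C * ‖f‖ ^ 2)
    (n : Fin 3) (f : V3) {γ : V3} {A : ℝ} (hA : 0 ≤ A) (hγ : Bd γ A) {a b : ℝ} (ha : 0 < a)
    (hab : a ≤ b) :
    ∫ y in a..b, y * ∑ α : Option (Fin 3), ‖c1W n f γ α y‖ ^ 2 ≤
      (33 + 14 * C) * A ^ 2 * ‖f‖ ^ 2 := by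
  have hpos : ∀ y ∈ uIcc a b, 0 < y := by
    intro y hy
    rw [uIcc_of_le hab] at hy
    linarith [hy.1]
  have cU : ∀ α, ContinuousOn (c1U n f γ α) (uIcc a b) := fun α y hy =>
    (c1_contU hc n f γ α (hpos y hy)).continuousWithinAt
  have cW : ∀ α, ContinuousOn (c1W n f γ α) (uIcc a b) := fun α y hy =>
    (c1_contW hs hc n f γ α (hpos y hy)).continuousWithinAt
  have cD : ∀ j, ContinuousOn (fun y => Dp j y f) (uIcc a b) := fun j y hy =>
    (hs.dyd j y (hpos y hy) f).continuousAt.continuousWithinAt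
  have cY : ContinuousOn (fun y => Yp y f) (uIcc a b) := fun y hy =>
    (deriv_Yp (hpos y hy) f).continuousAt.continuousWithinAt
  have cq : ContinuousOn (c1q n f γ) (uIcc a b) := by
    unfold c1q
    apply continuousOn_finsetSum
    intro α _
    exact (((cU α).norm.pow 2).add ((cW α).norm.pow 2)).add
      (continuousOn_const.mul ((cW α).inner (cU α)))
  have i1 : IntervalIntegrable (fun y => y * ∑ α : Option (Fin 3), ‖c1W n f γ α y‖ ^ 2)
      volume a b := by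
    apply ContinuousOn.intervalIntegrable
    exact continuousOn_id.mul (continuousOn_finsetSum _ fun α _ => (cW α).norm.pow 2)
  have i2 : IntervalIntegrable (fun y => y * c1q n f γ y) volume a b :=
    (continuousOn_id.mul cq).intervalIntegrable
  have i3 : IntervalIntegrable (fun y => y * (∑ j, ‖Dp j y f‖ ^ 2 + ‖Yp y f‖ ^ 2))
      volume a b := by
    apply ContinuousOn.intervalIntegrable
    exact continuousOn_id.mul ((continuousOn_finsetSum _ fun j _ => (cD j).norm.pow 2).add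
      (cY.norm.pow 2))
  have hftc : ∫ y in a..b, y * c1q n f γ y =
      (b * ⟪tens n (Pp b f) (Pp b γ), tens n (Yp b f) (Pp b γ) + tens n (Pp b f) (Yp b γ)⟫_ℝ -
        (1 / 2) * ‖tens n (Pp b f) (Pp b γ)‖ ^ 2) -
      (a * ⟪tens n (Pp a f) (Pp a γ), tens n (Yp a f) (Pp a γ) + tens n (Pp a f) (Yp a γ)⟫_ℝ -
        (1 / 2) * ‖tens n (Pp a f) (Pp a γ)‖ ^ 2) := by
    refine intervalIntegral.integral_eq_sub_of_hasDerivAt (f := fun y =>
      y * ⟪tens n (Pp y f) (Pp y γ), tens n (Yp y f) (Pp y γ) + tens n (Pp y f) (Yp y γ)⟫_ℝ -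
        (1 / 2) * ‖tens n (Pp y f) (Pp y γ)‖ ^ 2) (fun y hy => ?_) i2
    have hy0 := hpos y hy
    have h1 := (hasDerivAt_id y).mul (c1_second hc n hy0 f γ)
    have h2 := ((c1_dPP hc n hy0 f γ).norm_sq).const_mul (1 / 2 : ℝ)
    refine (h1.sub h2).congr_deriv ?_
    simp only [id]
    ring
  have hb1 := abs_le.1 (c1_bX' n f hA hγ (ha.trans_le hab))
  have hb2 := abs_le.1 (c1_bX' n f hA hγ ha)
  have hb3 : ‖tens n (Pp a f) (Pp a γ)‖ ^ 2 ≤ A ^ 2 * ‖f‖ ^ 2 := by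
    rw [← mul_pow]
    exact pow_le_pow_left₀ (norm_nonneg _) (c1_bX n f hA hγ ha) 2
  have hb4 := sq_nonneg ‖tens n (Pp b f) (Pp b γ)‖
  have hq : ∫ y in a..b, y * c1q n f γ y ≤ 33 / 2 * A ^ 2 * ‖f‖ ^ 2 := by
    rw [hftc]
    linarith [hb1.2, hb2.1]
  calc ∫ y in a..b, y * ∑ α : Option (Fin 3), ‖c1W n f γ α y‖ ^ 2
      ≤ ∫ y in a..b, (2 * (y * c1q n f γ y) +
          14 * A ^ 2 * (y * (∑ j, ‖Dp j y f‖ ^ 2 + ‖Yp y f‖ ^ 2))) := by
        apply intervalIntegral.integral_mono_on hab i1 ((i2.const_mul 2).add (i3.const_mul _))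
        intro y hy
        have hy0 : 0 < y := by linarith [hy.1]
        have h1 := c1_q_le n f γ y
        have h2 := c1_bU n f hA hγ hy0
        calc y * ∑ α : Option (Fin 3), ‖c1W n f γ α y‖ ^ 2
            ≤ y * (2 * c1q n f γ y + 14 * (A ^ 2 * (∑ j, ‖Dp j y f‖ ^ 2 + ‖Yp y f‖ ^ 2))) := by
              apply mul_le_mul_of_nonneg_left _ hy0.le
              linarith
          _ = _ := by ring
    _ = 2 * (∫ y in a..b, y * c1q n f γ y) +
          14 * A ^ 2 * ∫ y in a..b, y * (∑ j, ‖Dp j y f‖ ^ 2 + ‖Yp y f‖ ^ 2) := by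
        rw [intervalIntegral.integral_add (i2.const_mul 2) (i3.const_mul _),
          intervalIntegral.integral_const_mul, intervalIntegral.integral_const_mul]
    _ ≤ 2 * (33 / 2 * A ^ 2 * ‖f‖ ^ 2) + 14 * A ^ 2 * (C * ‖f‖ ^ 2) := by
        have := hC f a b ha hab
        gcongr
    _ = _ := by ring

theorem c1_single (hs : SG) (hc : Cal) (n : Fin 3) (f γ : V3) (α : Option (Fin 3)) {a b : ℝ}
    (ha : 0 < a) (hab : a ≤ b) : ∫ y in a..b, y * ‖c1W n f γ α y‖ ^ 2 ≤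
      ∫ y in a..b, y * ∑ β : Option (Fin 3), ‖c1W n f γ β y‖ ^ 2 := by
  have hpos : ∀ y ∈ uIcc a b, 0 < y := by
    intro y hy
    rw [uIcc_of_le hab] at hy
    linarith [hy.1]
  have cW : ∀ α, ContinuousOn (c1W n f γ α) (uIcc a b) := fun α y hy =>
    (c1_contW hs hc n f γ α (hpos y hy)).continuousWithinAt
  apply intervalIntegral.integral_mono_on hab
  · exact (continuousOn_id.mul ((cW α).norm.pow 2)).intervalIntegrable
  · exact (continuousOn_id.mul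
      (continuousOn_finsetSum _ fun β _ => (cW β).norm.pow 2)).intervalIntegrable
  · intro y hy
    have hy0 : 0 < y := by linarith [hy.1]
    apply mul_le_mul_of_nonneg_left _ hy0.le
    exact Finset.single_le_sum (f := fun β => ‖c1W n f γ β y‖ ^ 2) (fun β _ => sq_nonneg _)
      (Finset.mem_univ α)

/-- (C1) -/
theorem stC1 (hs : SG) (hc : Cal) (hq : StSq) : StC1 := by
  obtain ⟨C, hC0, hC⟩ := hq
  refine ⟨33 + 14 * C, by positivity, fun γ A hA hγ => ?_⟩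
  have key : ∀ (n : Fin 3) (α : Option (Fin 3)) (f : V3) (a b : ℝ), 0 < a → a ≤ b →
      ∫ y in a..b, y * ‖c1W n f γ α y‖ ^ 2 ≤ ((33 + 14 * C) * A) ^ 2 * ‖f‖ ^ 2 := by
    intro n α f a b ha hab
    refine (c1_single hs hc n f γ α ha hab).trans ((c1_main hs hc hC n f hA hγ ha hab).trans ?_)
    apply mul_le_mul_of_nonneg_right _ (sq_nonneg _)
    nlinarith [sq_nonneg A]
  refine ⟨by positivity, fun j y hy => ?_, fun y hy => ?_, fun n j => key n (some j),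
    fun n => key n none⟩
  · filter_upwards [bd_Dp j hy hA hγ] with x hx
    refine hx.trans ?_
    rw [div_mul_eq_mul_div]
    gcongr
    linarith
  · filter_upwards [bd_Yp hy hA hγ] with x hx
    refine hx.trans ?_
    rw [div_mul_eq_mul_div]
    gcongr
    linarith

end Pool.Agent.TF
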