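import Pool.Agent.TF.Def

/-!
# Products of curves of fields: derivatives in `y`, weak derivatives in `x`
-/

set_option autoImplicit false

namespace Pool.Agent.TF

open MeasureTheory Set Filter Topology Pool.Agent.TO Pool.Agent.TB Pool.Agent.TC Pool.Agent.TP
open scoped ENNReal NNReal Real InnerProductSpace SchwartzMap LineDeriv

/-! ### the bound from `L²` to `L^∞` -/

theorem bd_cvO_two {κ : E3 → ℝ} {L M : ℝ} (h : KK κ L) (hM : ∀ x, |κ x| ≤ M) (f : V3) :
    Bd (cvO κ f) (√(L * M) * ‖f‖) := by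
  unfold Bd
  have hM0 : 0 ≤ M := (abs_nonneg _).trans (hM 0)
  filter_upwards [coe_cvO h f] with x hx
  rw [hx]
  have h1 := sq_cvf_le h (Lp.stronglyMeasurable f) x
  have h2 : ∫⁻ y, ‖κ y‖ₑ * ‖f (x - y)‖ₑ ^ 2 ≤ ENNReal.ofReal M * ENNReal.ofReal (‖f‖ ^ 2) := by
    calc ∫⁻ y, ‖κ y‖ₑ * ‖f (x - y)‖ₑ ^ 2 ≤ ∫⁻ y, ENNReal.ofReal M * ‖f (x - y)‖ₑ ^ 2 := by
          apply lintegral_mono
          intro y
          have h5 : ‖κ y‖ₑ ≤ ENNReal.ofReal M := by
            rw [← ofReal_norm]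
            exact ENNReal.ofReal_le_ofReal (hM y)
          exact mul_le_mul_left h5 _
      _ = ENNReal.ofReal M * ∫⁻ y, ‖f y‖ₑ ^ 2 := by
          rw [lintegral_const_mul _ ((meas_shift (Lp.stronglyMeasurable f) x).pow_const 2),
            lintegral_sub_left_eq_self (fun y => ‖f y‖ₑ ^ 2) x]
      _ = _ := by rw [lintegral_sq_V3, enorm_sq_ofReal]
  have h3 : ENNReal.ofReal (‖cvf κ f x‖ ^ 2) ≤ ENNReal.ofReal ((√(L * M) * ‖f‖) ^ 2) := by
    have h0 : ENNReal.ofReal (‖cvf κ f x‖ ^ 2) = ‖cvf κ f x‖ₑ ^ 2 := by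
      rw [← ofReal_norm, ENNReal.ofReal_pow (norm_nonneg _)]
    rw [h0, mul_pow, Real.sq_sqrt (mul_nonneg h.nonneg hM0),
      ENNReal.ofReal_mul (mul_nonneg h.nonneg hM0), ENNReal.ofReal_mul h.nonneg, mul_assoc]
    exact h1.trans (mul_le_mul_right h2 _)
  exact le_of_sq_ofReal (by positivity) h3

/-- the constant of the bound from `L²` to `L^∞` -/
noncomputable def cP (y : ℝ) : ℝ := √((JJ 4)⁻¹ * y⁻¹ ^ 3)

theorem cP_nonneg (y : ℝ) : 0 ≤ cP y := Real.sqrt_nonneg _

theorem bd_Pp_two {y : ℝ} (hy : 0 < y) (f : V3) : Bd (Pp y f) (cP y * ‖f‖) := by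
  have h := bd_cvO_two (kk_pk hy) (M := (JJ 4)⁻¹ * y⁻¹ ^ 3) (fun x => ?_) f
  · rw [one_mul] at h
    exact h
  · refine (abs_pk_le hy x).trans ?_
    have h1 : sg y x ≤ y⁻¹ := by
      have h2 := rho_sg hy x
      have h3 : y * sg y x ≤ 1 := by simpa using h2
      rw [inv_eq_one_div, le_div_iff₀ hy]
      linarith
    have h4 : sg y x ^ 4 ≤ y⁻¹ ^ 4 := pow_le_pow_left₀ (sg_pos hy x).le h1 4
    have h5 := JJ4_inv_pos
    calc (JJ 4)⁻¹ * y * sg y x ^ 4 ≤ (JJ 4)⁻¹ * y * y⁻¹ ^ 4 :=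
          mul_le_mul_of_nonneg_left h4 (by positivity)
      _ = _ := by field_simp

/-! ### the product `tens` -/

section tens

variable {k : Fin 3} {f f' g g' : V3} {A A' B B' : ℝ}

theorem bd_smul (hf : Bd f A) (c : ℝ) : Bd (c • f) (|c| * A) := by
  unfold Bd at *
  filter_upwards [hf, Lp.coeFn_smul c f] with x h1 h2
  rw [h2, Pi.smul_apply, norm_smul, Real.norm_eq_abs]
  exact mul_le_mul_of_nonneg_left h1 (abs_nonneg c)

theorem bd_zero : Bd (0 : V3) 0 := by
  unfold Bd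
  filter_upwards [Lp.coeFn_zero E3 2 (volume : Measure E3)] with x h
  rw [h]; simp

theorem tens_addL (hf : Bd f A) (hf' : Bd f' A') (g : V3) :
    tens k (f + f') g = tens k f g + tens k f' g := by
  apply Lp.ext
  filter_upwards [Lp.coeFn_add (tens k f g) (tens k f' g), Lp.coeFn_add f f',
    coe_tens_left k hf g, coe_tens_left k hf' g, coe_tens_left k (bd_add hf hf') g]
    with x h1 h2 h3 h4 h5
  rw [h5, h1, Pi.add_apply, h3, h4, h2, Pi.add_apply, PiLp.add_apply, add_smul]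

theorem tens_smulL (hf : Bd f A) (c : ℝ) (g : V3) : tens k (c • f) g = c • tens k f g := by
  apply Lp.ext
  filter_upwards [Lp.coeFn_smul c (tens k f g), Lp.coeFn_smul c f,
    coe_tens_left k hf g, coe_tens_left k (bd_smul hf c) g]
    with x h1 h2 h3 h5
  rw [h5, h1, Pi.smul_apply, h3, h2, Pi.smul_apply, PiLp.smul_apply, smul_eq_mul, mul_smul]

theorem tens_addL' (hf : Bd f A) (g g' : V3) :
    tens k f (g + g') = tens k f g + tens k f g' := by
  apply Lp.ext
  filter_upwards [Lp.coeFn_add (tens k f g) (tens k f g'), Lp.coeFn_add g g',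
    coe_tens_left k hf g, coe_tens_left k hf g', coe_tens_left k hf (g + g')]
    with x h1 h2 h3 h4 h5
  rw [h5, h1, Pi.add_apply, h3, h4, h2, Pi.add_apply, smul_add]

theorem tens_smulL' (hf : Bd f A) (c : ℝ) (g : V3) : tens k f (c • g) = c • tens k f g := by
  apply Lp.ext
  filter_upwards [Lp.coeFn_smul c (tens k f g), Lp.coeFn_smul c g,
    coe_tens_left k hf g, coe_tens_left k hf (c • g)]
    with x h1 h2 h3 h5
  rw [h5, h1, Pi.smul_apply, h3, h2, Pi.smul_apply, smul_comm]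

theorem tens_smulR (f : V3) (hg : Bd g A) (c : ℝ) : tens k (c • f) g = c • tens k f g := by
  apply Lp.ext
  filter_upwards [Lp.coeFn_smul c (tens k f g), Lp.coeFn_smul c f,
    coe_tens_right k f hg, coe_tens_right k (c • f) hg]
    with x h1 h2 h3 h5
  rw [h5, h1, Pi.smul_apply, h3, h2, Pi.smul_apply, PiLp.smul_apply, smul_eq_mul, mul_smul]

theorem tens_smulR' (f : V3) (hg : Bd g A) (c : ℝ) : tens k f (c • g) = c • tens k f g := by
  apply Lp.ext
  filter_upwards [Lp.coeFn_smul c (tens k f g), Lp.coeFn_smul c g,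
    coe_tens_right k f hg, coe_tens_right k f (bd_smul hg c)]
    with x h1 h2 h3 h5
  rw [h5, h1, Pi.smul_apply, h3, h2, Pi.smul_apply, smul_comm]

end tens

/-! ### derivatives in `y` -/

/-- the curve `H` has the derivative `H'` at `y` in the sup norm -/
def BdD (H : ℝ → V3) (H' : V3) (y : ℝ) : Prop :=
  ∀ ε > 0, ∀ᶠ s in 𝓝 y, Bd (H s - H y - (s - y) • H') (ε * |s - y|)

theorem hasDerivAt_eps {F : ℝ → V3} {F' : V3} {y : ℝ} :
    HasDerivAt F F' y ↔
      ∀ ε > 0, ∀ᶠ s in 𝓝 y, ‖F s - F y - (s - y) • F'‖ ≤ ε * |s - y| := by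
  rw [hasDerivAt_iff_isLittleO, Asymptotics.isLittleO_iff]
  simp only [Real.norm_eq_abs]

/-- the product rule, the left factor differentiable in the sup norm -/
theorem hasDerivAt_tensL {n : Fin 3} {H G : ℝ → V3} {H' G' : V3} {y A B : ℝ}
    (hH : BdD H H' y) (hA : Bd (H y) A) (hB : Bd H' B) (hG : HasDerivAt G G' y) :
    HasDerivAt (fun s => tens n (H s) (G s)) (tens n H' (G y) + tens n (H y) G') y := by
  have hA0 : 0 ≤ |A| := abs_nonneg A
  have hA' : Bd (H y) |A| := bd_mono hA (le_abs_self A)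
  have hB' : Bd H' |B| := bd_mono hB (le_abs_self B)
  rw [hasDerivAt_eps]
  intro ε hε
  have e1 := hH (ε / (3 * (‖G y‖ + 1))) (by positivity)
  have e2 := hasDerivAt_eps.1 hG (ε / (3 * (|A| + 1))) (by positivity)
  have e3 : ∀ᶠ s in 𝓝 y, ‖G s - G y‖ < ε / (3 * (|B| + 1)) := by
    have := (hG.continuousAt.tendsto.sub_const (G y)).norm
    rw [sub_self, norm_zero] at this
    exact this.eventually_lt_const (by positivity)
  have e4 : ∀ᶠ s in 𝓝 y, ‖G s‖ < ‖G y‖ + 1 :=
    hG.continuousAt.tendsto.norm.eventually_lt_const (by linarith)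
  filter_upwards [e1, e2, e3, e4] with s h1 h2 h3 h4
  set r := H s - H y - (s - y) • H' with hr
  have hs : H s = H y + ((s - y) • H' + r) := by rw [hr]; abel
  have hb1 := bd_smul hB' (s - y)
  have e5 : tens n (H s) (G s) = tens n (H y) (G s) + ((s - y) • tens n H' (G s) +
      tens n r (G s)) := by
    rw [hs, tens_addL hA' (bd_add hb1 h1), tens_addL hb1 h1, tens_smulL hB']
  have e6 : tens n (H y) (G s - G y - (s - y) • G') =
      tens n (H y) (G s) - tens n (H y) (G y) - (s - y) • tens n (H y) G' := by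
    have : G s - G y - (s - y) • G' = G s + ((-1 : ℝ) • G y + (-(s - y)) • G') := by
      rw [neg_one_smul, neg_smul]; abel
    rw [this, tens_addL' hA', tens_addL' hA', tens_smulL' hA', tens_smulL' hA', neg_one_smul,
      neg_smul]
    abel
  have e7 : tens n H' (G s - G y) = tens n H' (G s) - tens n H' (G y) := by
    have : G s - G y = G s + (-1 : ℝ) • G y := by rw [neg_one_smul]; abel
    rw [this, tens_addL' hB', tens_smulL' hB', neg_one_smul]
    abel
  have e8 : tens n (H s) (G s) - tens n (H y) (G y) -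
      (s - y) • (tens n H' (G y) + tens n (H y) G') =
      tens n (H y) (G s - G y - (s - y) • G') + (s - y) • tens n H' (G s - G y) +
        tens n r (G s) := by
    rw [e5, e6, e7, smul_add, smul_sub]
    abel
  rw [e8]
  have n1 := tens_left_le n hA' (G s - G y - (s - y) • G')
  have n2 := tens_left_le n hB' (G s - G y)
  have n3 := tens_left_le n h1 (G s)
  have hp := abs_nonneg (s - y)
  have m1 : |A| * ‖G s - G y - (s - y) • G'‖ ≤ ε / 3 * |s - y| := by
    calc |A| * ‖G s - G y - (s - y) • G'‖ ≤ |A| * (ε / (3 * (|A| + 1)) * |s - y|) :=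
          mul_le_mul_of_nonneg_left h2 hA0
      _ = (|A| / (|A| + 1)) * (ε / 3 * |s - y|) := by field_simp
      _ ≤ 1 * (ε / 3 * |s - y|) := by
          apply mul_le_mul_of_nonneg_right _ (by positivity)
          rw [div_le_one (by positivity)]; linarith
      _ = _ := one_mul _
  have m2 : |s - y| * (|B| * ‖G s - G y‖) ≤ ε / 3 * |s - y| := by
    calc |s - y| * (|B| * ‖G s - G y‖) ≤ |s - y| * (|B| * (ε / (3 * (|B| + 1)))) := by gcongr
      _ = (|B| / (|B| + 1)) * (ε / 3 * |s - y|) := by field_simp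
      _ ≤ 1 * (ε / 3 * |s - y|) := by
          apply mul_le_mul_of_nonneg_right _ (by positivity)
          rw [div_le_one (by positivity)]; linarith
      _ = _ := one_mul _
  have m3 : (ε / (3 * (‖G y‖ + 1)) * |s - y|) * ‖G s‖ ≤ ε / 3 * |s - y| := by
    calc (ε / (3 * (‖G y‖ + 1)) * |s - y|) * ‖G s‖
        ≤ (ε / (3 * (‖G y‖ + 1)) * |s - y|) * (‖G y‖ + 1) := by gcongr
      _ = _ := by field_simp
  calc _ ≤ ‖tens n (H y) (G s - G y - (s - y) • G')‖ + ‖(s - y) • tens n H' (G s - G y)‖ +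
        ‖tens n r (G s)‖ := norm_add₃_le
    _ ≤ ε / 3 * |s - y| + ε / 3 * |s - y| + ε / 3 * |s - y| := by
        rw [norm_smul, Real.norm_eq_abs]
        have := mul_le_mul_of_nonneg_left n2 hp
        linarith
    _ = _ := by ring

/-- the derivative of the trilinear form -/
theorem hasDerivAt_tri {n : Fin 3} {F H G : ℝ → V3} {F' H' G' : V3} {y A B : ℝ}
    (hF : HasDerivAt F F' y) (hH : BdD H H' y) (hA : Bd (H y) A) (hB : Bd H' B)
    (hG : HasDerivAt G G' y) :
    HasDerivAt (fun s => ⟪F s, tens n (H s) (G s)⟫_ℝ)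
      (⟪F y, tens n H' (G y) + tens n (H y) G'⟫_ℝ + ⟪F', tens n (H y) (G y)⟫_ℝ) y :=
  hF.inner ℝ (hasDerivAt_tensL hH hA hB hG)

/-- smoothing makes a curve differentiable in the sup norm -/
theorem bdD_Pp {a y : ℝ} (ha : 0 < a) {K : ℝ → V3} {K' : V3} (hK : HasDerivAt K K' y) :
    BdD (fun s => Pp a (K s)) (Pp a K') y := by
  intro ε hε
  filter_upwards [hasDerivAt_eps.1 hK (ε / (cP a + 1)) (by have := cP_nonneg a; positivity)]
    with s hs
  have e : Pp a (K s) - Pp a (K y) - (s - y) • Pp a K' = Pp a (K s - K y - (s - y) • K') := by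
    rw [map_sub, map_sub, map_smul]
  have hc := cP_nonneg a
  rw [e]
  refine bd_mono (bd_Pp_two ha _) ?_
  calc cP a * ‖K s - K y - (s - y) • K'‖ ≤ cP a * (ε / (cP a + 1) * |s - y|) :=
        mul_le_mul_of_nonneg_left hs hc
    _ = (cP a / (cP a + 1)) * (ε * |s - y|) := by field_simp
    _ ≤ 1 * (ε * |s - y|) := by
        apply mul_le_mul_of_nonneg_right _ (by positivity)
        rw [div_le_one (by positivity)]; linarith
    _ = _ := one_mul _

theorem BdD.congr {H K : ℝ → V3} {H' : V3} {y : ℝ} (h : BdD H H' y)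
    (he : ∀ᶠ s in 𝓝 y, K s = H s) : BdD K H' y := by
  intro ε hε
  filter_upwards [h ε hε, he] with s h1 h2
  rw [h2, he.self_of_nhds]
  exact h1

end Pool.Agent.TF
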