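import Pool.Agent.TF.C.Def
import Pool.Agent.TF.C.Tri
import Mathlib.Analysis.LocallyConvex.Separation

/-!
# Block C: sup bounds of `∇ P_y R_j γ` and the class `Carl` under Riesz transforms
-/

set_option autoImplicit false

namespace Pool.Agent.TF

open MeasureTheory Set Filter Topology Pool.Agent.TO Pool.Agent.TB Pool.Agent.TC Pool.Agent.TP
open scoped ENNReal NNReal Real InnerProductSpace SchwartzMap LineDeriv

namespace C2

/-- the set of the fields bounded by `A` -/
def BS (A : ℝ) : Set V3 := {f | Bd f A}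

theorem convex_BS (A : ℝ) : Convex ℝ (BS A) := by
  intro f hf g hg a b ha hb hab
  have h1 := bd_add (bd_smul hf a) (bd_smul hg b)
  rw [abs_of_nonneg ha, abs_of_nonneg hb, ← add_mul, hab, one_mul] at h1
  exact h1

theorem isClosed_BS (A : ℝ) : IsClosed (BS A) := by
  apply IsSeqClosed.isClosed
  intro f g hf hg
  exact bd_of_tendsto hg (Eventually.of_forall hf)

/-- a sup bound obtained by integration from infinity -/
theorem bd_inf {F F' : ℝ → V3} {K y : ℝ} (hy : 0 < y)
    (hd : ∀ s, y ≤ s → HasDerivAt F (F' s) s) (hb : ∀ s, y ≤ s → Bd (F' s) (K / s ^ 2))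
    (hl : Tendsto F atTop (𝓝 0)) : Bd (F y) (K / y) := by
  by_contra hcon
  obtain ⟨φ, u, h1, h2⟩ := geometric_hahn_banach_closed_point (convex_BS (K / y))
    (isClosed_BS (K / y)) (show F y ∉ BS (K / y) from hcon)
  -- the monotone function
  have hder : ∀ s, y ≤ s → HasDerivAt (fun s => φ (F s) - u * y * s⁻¹)
      (φ (F' s) + u * y / s ^ 2) s := by
    intro s hs
    have hs0 : s ≠ 0 := (hy.trans_le hs).ne'
    have h3 : HasDerivAt (fun s => φ (F s)) (φ (F' s)) s := φ.hasFDerivAt.comp_hasDerivAt s (hd s hs)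
    have h4 := h3.sub ((hasDerivAt_inv hs0).const_mul (u * y))
    have h5 : φ (F' s) + u * y / s ^ 2 = φ (F' s) - u * y * -(s ^ 2)⁻¹ := by
      rw [div_eq_mul_inv]
      ring
    rw [h5]
    exact h4
  have hpos : ∀ s, y ≤ s → 0 ≤ φ (F' s) + u * y / s ^ 2 := by
    intro s hs
    have hs0 : 0 < s := hy.trans_le hs
    have h3 : (-(s ^ 2 / y)) • F' s ∈ BS (K / y) := by
      have h4 := bd_smul (hb s hs) (-(s ^ 2 / y))
      have h5 : |(-(s ^ 2 / y))| * (K / s ^ 2) = K / y := by
        rw [abs_neg, abs_of_pos (by positivity)]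
        field_simp
      rw [h5] at h4
      exact h4
    have h6 := h1 _ h3
    rw [map_smul, smul_eq_mul] at h6
    have h7 : φ (F' s) + u * y / s ^ 2 = (y / s ^ 2) * (u - -(s ^ 2 / y) * φ (F' s)) := by
      field_simp
      ring
    rw [h7]
    have h8 : 0 < y / s ^ 2 := by positivity
    exact mul_nonneg h8.le (by linarith)
  have hmono : MonotoneOn (fun s => φ (F s) - u * y * s⁻¹) (Ici y) := by
    apply monotoneOn_of_deriv_nonneg (convex_Ici y)
    · exact fun s hs => (hder s hs).continuousAt.continuousWithinAt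
    · intro s hs
      rw [interior_Ici] at hs
      exact (hder s hs.le).differentiableAt.differentiableWithinAt
    · intro s hs
      rw [interior_Ici] at hs
      rw [(hder s hs.le).deriv]
      exact hpos s hs.le
  have hlim : Tendsto (fun s => φ (F s) - u * y * s⁻¹) atTop (𝓝 0) := by
    have h3 : Tendsto (fun s => φ (F s)) atTop (𝓝 0) := by
      have := (φ.continuous.tendsto 0).comp hl
      rwa [map_zero] at this
    have h4 : Tendsto (fun s : ℝ => u * y * s⁻¹) atTop (𝓝 0) := by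
      have := tendsto_inv_atTop_zero (𝕜 := ℝ) |>.const_mul (u * y)
      rwa [mul_zero] at this
    have := h3.sub h4
    rwa [sub_zero] at this
  have h5 : φ (F y) - u * y * y⁻¹ ≤ 0 := by
    refine ge_of_tendsto hlim ?_
    filter_upwards [eventually_ge_atTop y] with s hs
    exact hmono (mem_Ici.2 le_rfl) (mem_Ici.2 hs) hs
  rw [mul_assoc, mul_inv_cancel₀ hy.ne', mul_one] at h5
  linarith

theorem tens_neg' {n : Fin 3} {y : ℝ} (hy : 0 < y) (f g : V3) :
    ‖tens n (Pp y f) (-g)‖ = ‖tens n (Pp y f) g‖ := by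
  have h1 := tens_smulL' (k := n) (bd_Pp_two hy f) (-1) g
  rw [neg_one_smul, neg_one_smul] at h1
  rw [h1, norm_neg]

end C2

theorem stBx (hs : SG) : StBx := by
  refine ⟨16, by norm_num, fun R hR j k γ N hγ y hy => ?_⟩
  refine C2.bd_inf (F := fun s => Dp k s (R j γ))
    (F' := fun s => Dp k (s / 2) (Yp (s / 2) (R j γ))) hy (fun s hs' => ?_) (fun s hs' => ?_) ?_
  · exact hs.dyd k s (hy.trans_le hs') (R j γ)
  · have hs0 : 0 < s := hy.trans_le hs'
    have hN := hγ.nn
    rw [hR.yp j (s / 2) (by positivity), map_neg]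
    have h1 := bd_neg (bd_Dp k (y := s / 2) (by positivity) (by positivity)
      (hγ.bx j (s / 2) (by positivity)))
    have h2 : 4 / (s / 2) * (N / (s / 2)) = 16 * N / s ^ 2 := by
      field_simp
      ring
    rw [h2] at h1
    exact h1
  · rw [tendsto_zero_iff_norm_tendsto_zero]
    have h1 : Tendsto (fun s : ℝ => 4 / s * ‖R j γ‖) atTop (𝓝 0) := by
      have := (tendsto_inv_atTop_zero (𝕜 := ℝ) |>.const_mul 4).mul_const ‖R j γ‖
      simpa [div_eq_mul_inv] using this
    refine squeeze_zero' (Eventually.of_forall fun s => norm_nonneg _) ?_ h1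
    filter_upwards [eventually_gt_atTop 0] with s hs'
    exact norm_Dp_le k hs' (R j γ)

theorem stC2 (hb : StBx) (hr : StRel) : StC2 := by
  obtain ⟨C₁, hC₁, hb⟩ := hb
  obtain ⟨C₂, hC₂, hr⟩ := hr
  refine ⟨C₁ + C₂ * (C₁ + 1) + 1, by positivity, fun R hR j γ N hγ => ?_⟩
  have hN := hγ.nn
  -- the y-derivative
  have hY : ∀ y : ℝ, 0 < y → Bd (Yp y (R j γ)) (N / y) := by
    intro y hy
    rw [hR.yp j y hy]
    exact bd_neg (hγ.bx j y hy)
  have hcy : ∀ n (f : V3) (a b : ℝ), 0 < a → a ≤ b →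
      ∫ y in a..b, y * ‖tens n (Pp y f) (Yp y (R j γ))‖ ^ 2 ≤ N ^ 2 * ‖f‖ ^ 2 := by
    intro n f a b ha hab
    refine le_trans (le_of_eq ?_) (hγ.cx n j f a b ha hab)
    apply intervalIntegral.integral_congr
    intro y hy
    rw [uIcc_of_le hab] at hy
    have hy0 : 0 < y := ha.trans_le hy.1
    simp only
    rw [hR.yp j y hy0, C2.tens_neg' hy0]
  have hM : 0 ≤ (C₁ + 1) * N := by positivity
  have hle1 : N ≤ (C₁ + 1) * N := by nlinarith
  have hx := hr (R j γ) ((C₁ + 1) * N) hM
    (fun k y hy => bd_mono (hb R hR j k γ N hγ y hy) (by gcongr; linarith))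
    (fun y hy => bd_mono (hY y hy) (by gcongr))
    (fun n f a b ha hab => (hcy n f a b ha hab).trans (by gcongr))
  have hle : ∀ {c : ℝ}, 0 ≤ c → c ≤ C₁ + C₂ * (C₁ + 1) + 1 →
      c * N ≤ (C₁ + C₂ * (C₁ + 1) + 1) * N := fun hc h => mul_le_mul_of_nonneg_right h hN
  refine ⟨by positivity, fun k y hy => ?_, fun y hy => ?_, fun n k f a b ha hab => ?_,
    fun n f a b ha hab => ?_⟩
  · refine bd_mono (hb R hR j k γ N hγ y hy) ?_
    have h1 : C₁ * N ≤ (C₁ + C₂ * (C₁ + 1) + 1) * N := by
      apply hle hC₁.le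
      nlinarith
    gcongr
  · refine bd_mono (hY y hy) ?_
    have h1 : N ≤ (C₁ + C₂ * (C₁ + 1) + 1) * N := by
      have h2 : 1 * N ≤ (C₁ + C₂ * (C₁ + 1) + 1) * N := by
        apply hle zero_le_one
        nlinarith
      linarith
    gcongr
  · refine (hx n k f a b ha hab).trans ?_
    have h1 : C₂ * ((C₁ + 1) * N) ≤ (C₁ + C₂ * (C₁ + 1) + 1) * N := by
      rw [← mul_assoc]
      apply hle (by positivity)
      linarith
    gcongr
  · refine (hcy n f a b ha hab).trans ?_
    have h1 : N ≤ (C₁ + C₂ * (C₁ + 1) + 1) * N := by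
      have h2 : 1 * N ≤ (C₁ + C₂ * (C₁ + 1) + 1) * N := by
        apply hle zero_le_one
        nlinarith
      linarith
    gcongr

end Pool.Agent.TF
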