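import Pool.Agent.TF.C.Def

/-!
# Block C: the commutator of one Riesz transform
-/

set_option autoImplicit false

namespace Pool.Agent.TF

open MeasureTheory Set Filter Topology Pool.Agent.TO Pool.Agent.TB Pool.Agent.TC Pool.Agent.TP
open scoped ENNReal NNReal Real InnerProductSpace SchwartzMap LineDeriv

namespace C3

/-- the trilinear form -/
noncomputable def T (n l : Fin 3) (f ψ γ : V3) (y : ℝ) : ℝ :=
  ⟪Pp y f, tens n (Pp y ψ) (Dp l y γ)⟫_ℝ

theorem contT (hs : SG) (hc : Cal) (n l : Fin 3) (f ψ γ : V3) : ContinuousOn (T n l f ψ γ) (Ioi 0) := by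
  intro y hy
  have h1 := hc.dP n y hy ψ (fun s => Dp l s γ) _ (hs.dyd l y hy γ)
  have h2 := deriv_Pp (show 0 < y from hy) f
  exact (h2.inner ℝ h1).continuousAt.continuousWithinAt

theorem intT (hs : SG) (hc : Cal) (n l : Fin 3) (f ψ γ : V3) {a b : ℝ} (ha : 0 < a) (hab : a ≤ b) :
    IntervalIntegrable (T n l f ψ γ) volume a b := by
  apply ContinuousOn.intervalIntegrable
  rw [uIcc_of_le hab]
  exact (contT hs hc n l f ψ γ).mono fun y hy => lt_of_lt_of_le ha hy.1

/-- the derivative falls on the data -/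
theorem Dp_eq {k : Fin 3} {f df : V3} (h : IsWeakDeriv k f df) {y : ℝ} (hy : 0 < y) :
    Dp k y f = Pp y df :=
  weak_unique (weak_Pp k hy f) (weak_cvO (pk y) h)

theorem Yp_eq {R : Fin 3 → V3 →L[ℝ] V3} (hR : RZ R) {w : V3} {dw : Fin 3 → V3}
    (h : ∀ l, IsWeakDeriv l w (dw l)) {y : ℝ} (hy : 0 < y) :
    Yp y w = Pp y (∑ k, R k (dw k)) := by
  rw [map_sum, ← hR.sum_dp y hy w]
  exact Finset.sum_congr rfl fun k _ => Dp_eq (hR.weak k k _ _ (h k)) hy

/-- the pairing with a bounded field -/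
theorem pair_bd (n : Fin 3) {h : V3} {M : ℝ} (hM : 0 ≤ M) (hh : Bd h M) (w : V3) {E : V3} {B : ℝ}
    (hE : Bd E B) : |⟪h, tens n w E⟫_ℝ| ≤ M * ‖w‖ * ‖E‖ := by
  have e : ⟪h, tens n w E⟫_ℝ = ∫ x, (w x) n * ⟪h x, E x⟫_ℝ := by
    rw [L2.inner_def]
    apply integral_congr_ae
    filter_upwards [coe_tens_right n w hE] with x hx
    rw [hx, inner_smul_right]
  rw [e, ← Real.norm_eq_abs]
  have hi : Integrable (fun x => ‖w x‖ * ‖E x‖) (volume : Measure E3) :=
    (Lp.memLp w).norm.integrable_mul (Lp.memLp E).norm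
  have h1 : ‖∫ x, (w x) n * ⟪h x, E x⟫_ℝ‖ ≤ ∫ x, M * (‖w x‖ * ‖E x‖) := by
    apply norm_integral_le_of_norm_le (hi.const_mul M)
    filter_upwards [hh] with x hx
    rw [norm_mul]
    calc ‖(w x) n‖ * ‖⟪h x, E x⟫_ℝ‖ ≤ ‖w x‖ * (M * ‖E x‖) := by
          apply mul_le_mul (PiLp.norm_apply_le (w x) n) _ (norm_nonneg _) (norm_nonneg _)
          exact (norm_inner_le_norm _ _).trans (mul_le_mul_of_nonneg_right hx (norm_nonneg _))
      _ = _ := by ring
  refine h1.trans ?_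
  rw [integral_const_mul, mul_assoc]
  apply mul_le_mul_of_nonneg_left _ hM
  have h2 := integral_mul_le_Lp_mul_Lq_of_nonneg (μ := (volume : Measure E3))
    (f := fun x => ‖w x‖) (g := fun x => ‖E x‖) Real.HolderConjugate.two_two
    (Eventually.of_forall fun x => norm_nonneg _) (Eventually.of_forall fun x => norm_nonneg _)
    (by simpa using (Lp.memLp w).norm) (by simpa using (Lp.memLp E).norm)
  refine h2.trans (le_of_eq ?_)
  have h3 : ∀ f : V3, (∫ x, ‖f x‖ ^ (2:ℝ)) ^ (1 / 2 : ℝ) = ‖f‖ := by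
    intro f
    have : (∫ x, ‖f x‖ ^ (2:ℝ)) = ‖f‖ ^ 2 := by
      rw [norm_sq_eq_real]
      simp
    rw [this, ← Real.sqrt_eq_rpow, Real.sqrt_sq (norm_nonneg _)]
  rw [h3, h3]

theorem norm_tens_le' (n : Fin 3) (w : V3) {E : V3} {B : ℝ} (hE : Bd E B) :
    ‖tens n w E‖ ≤ B * ‖w‖ := norm_tens_right_le n w hE

theorem lim_third (n : Fin 3) (h w D : V3) {B : ℝ} (hB : 0 ≤ B) (hD : Bd D B) :
    Tendsto (fun y => ⟪h, tens n w (Pp y D - D)⟫_ℝ) (𝓝[>] 0) (𝓝 0) := by
  rw [Metric.tendsto_nhds]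
  intro ε hε
  have hden : 0 < 4 * (2 * B * ‖w‖ + 1) := by positivity
  obtain ⟨φ, hφ⟩ : ∃ φ : 𝓢(E3, E3), ‖h - emb φ‖ < ε / (4 * (2 * B * ‖w‖ + 1)) := by
    obtain ⟨φ, hφ⟩ := dense_emb.exists_dist_lt h (div_pos hε hden)
    exact ⟨φ, by rwa [dist_eq_norm] at hφ⟩
  set M : ℝ := SchwartzMap.seminorm ℝ 0 0 φ with hM
  have hM0 : 0 ≤ M := apply_nonneg _ _
  have hlim : Tendsto (fun y => M * ‖w‖ * ‖Pp y D - D‖) (𝓝[>] 0) (𝓝 0) := by
    have h1 := (tendsto_iff_norm_sub_tendsto_zero.1 (tendsto_Pp_zero D)).const_mul (M * ‖w‖)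
    rwa [mul_zero] at h1
  filter_upwards [hlim.eventually (gt_mem_nhds (show (0:ℝ) < ε / 2 by linarith)),
    self_mem_nhdsWithin] with y hy hy0
  have hE : Bd (Pp y D - D) (B + B) := bd_sub (bd_Pp hy0 hB hD) hD
  have e : ⟪h, tens n w (Pp y D - D)⟫_ℝ = ⟪h - emb φ, tens n w (Pp y D - D)⟫_ℝ +
      ⟪emb φ, tens n w (Pp y D - D)⟫_ℝ := by
    rw [inner_sub_left]; ring
  rw [Real.dist_eq, sub_zero, e]
  have h1 : |⟪h - emb φ, tens n w (Pp y D - D)⟫_ℝ| ≤ ε / 4 := by
    refine (abs_real_inner_le_norm _ _).trans ?_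
    have h2 := norm_tens_right_le n w hE
    calc ‖h - emb φ‖ * ‖tens n w (Pp y D - D)‖
        ≤ ε / (4 * (2 * B * ‖w‖ + 1)) * ((B + B) * ‖w‖) :=
          mul_le_mul hφ.le h2 (norm_nonneg _) (by positivity)
      _ = ε / 4 * ((2 * B * ‖w‖) / (2 * B * ‖w‖ + 1)) := by
          field_simp; ring
      _ ≤ ε / 4 * 1 := by
          apply mul_le_mul_of_nonneg_left _ (by positivity)
          rw [div_le_one (by positivity)]
          linarith
      _ = _ := mul_one _
  have h3 : |⟪emb φ, tens n w (Pp y D - D)⟫_ℝ| < ε / 2 :=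
    lt_of_le_of_lt (pair_bd n hM0 (bd_emb φ) w hE) hy
  calc |_ + _| ≤ _ := abs_add_le _ _
    _ < ε := by linarith

/-- the limit at `y = 0` -/
theorem lim_zero (n : Fin 3) (h w D : V3) {B : ℝ} (hB : 0 ≤ B) (hD : Bd D B) :
    Tendsto (fun y => ⟪Pp y h, tens n (Pp y w) (Pp y D)⟫_ℝ) (𝓝[>] 0) (𝓝 ⟪h, tens n w D⟫_ℝ) := by
  have h3 := lim_third n h w D hB hD
  have h1 : Tendsto (fun y => ⟪Pp y h - h, tens n (Pp y w) (Pp y D)⟫_ℝ) (𝓝[>] 0) (𝓝 0) := by
    apply squeeze_zero_norm' (a := fun y => ‖Pp y h - h‖ * (B * ‖w‖))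
    · filter_upwards [self_mem_nhdsWithin] with y hy
      refine (norm_inner_le_norm _ _).trans (mul_le_mul_of_nonneg_left ?_ (norm_nonneg _))
      refine (norm_tens_right_le n _ (bd_Pp hy hB hD)).trans ?_
      exact mul_le_mul_of_nonneg_left (norm_Pp_le hy w) hB
    · have := (tendsto_iff_norm_sub_tendsto_zero.1 (tendsto_Pp_zero h)).mul_const (B * ‖w‖)
      rwa [zero_mul] at this
  have h2 : Tendsto (fun y => ⟪h, tens n (Pp y w - w) (Pp y D)⟫_ℝ) (𝓝[>] 0) (𝓝 0) := by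
    apply squeeze_zero_norm' (a := fun y => ‖h‖ * (B * ‖Pp y w - w‖))
    · filter_upwards [self_mem_nhdsWithin] with y hy
      refine (norm_inner_le_norm _ _).trans (mul_le_mul_of_nonneg_left ?_ (norm_nonneg _))
      exact norm_tens_right_le n _ (bd_Pp hy hB hD)
    · have := (((tendsto_iff_norm_sub_tendsto_zero.1 (tendsto_Pp_zero w)).const_mul B).const_mul ‖h‖)
      simpa using this
  have h4 := ((h1.add h2).add h3).add_const ⟪h, tens n w D⟫_ℝ
  simp only [add_zero, zero_add] at h4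
  refine h4.congr' ?_
  filter_upwards [self_mem_nhdsWithin] with y hy
  have hP := bd_Pp hy hB hD
  have e1 : tens n (Pp y w) (Pp y D) = tens n (Pp y w - w) (Pp y D) + tens n w (Pp y D) := by
    rw [← tens_add_left n _ _ hP, sub_add_cancel]
  have e2 : tens n w (Pp y D) = tens n w (Pp y D - D) + tens n w D := by
    rw [← tens_add_right n w (bd_sub hP hD) hD, sub_add_cancel]
  rw [inner_sub_left]
  have e3 : ⟪h, tens n (Pp y w) (Pp y D)⟫_ℝ = ⟪h, tens n (Pp y w - w) (Pp y D)⟫_ℝ +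
      (⟪h, tens n w (Pp y D - D)⟫_ℝ + ⟪h, tens n w D⟫_ℝ) := by
    rw [e1, inner_add_right]
    congr 1
    conv_lhs => rw [e2]
    rw [inner_add_right]
  rw [e3]; ring

/-- the limit at infinity -/
theorem lim_top (n l : Fin 3) (h w γ : V3) {N : ℝ} (hγ : Carl N γ) :
    Tendsto (fun y => ⟪Pp y h, tens n (Pp y w) (Dp l y γ)⟫_ℝ) atTop (𝓝 0) := by
  apply squeeze_zero_norm' (a := fun y => ‖h‖ * (N * y⁻¹ * ‖w‖))
  · filter_upwards [eventually_gt_atTop 0] with y hy
    refine (norm_inner_le_norm _ _).trans ?_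
    apply mul_le_mul (norm_Pp_le hy h) _ (norm_nonneg _) (norm_nonneg _)
    refine (norm_tens_right_le n _ (hγ.bx l y hy)).trans ?_
    rw [div_eq_mul_inv]
    exact mul_le_mul_of_nonneg_left (norm_Pp_le hy w) (mul_nonneg hγ.nn (by positivity))
  · have h1 : Tendsto (fun y : ℝ => y⁻¹) atTop (𝓝 0) := tendsto_inv_atTop_zero
    have := (((h1.const_mul N).mul_const ‖w‖).const_mul ‖h‖)
    simpa using this

theorem bd_mono' {f : V3} {A B : ℝ} (h : Bd f A) (hAB : A ≤ B) : Bd f B :=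
  h.mono fun _ hx => hx.trans hAB

theorem carl_mono {N N' : ℝ} {γ : V3} (h : Carl N γ) (hN : N ≤ N') : Carl N' γ where
  nn := h.nn.trans hN
  bx := fun j y hy => bd_mono' (h.bx j y hy) (by gcongr)
  by' := fun y hy => bd_mono' (h.by' y hy) (by gcongr)
  cx := fun n j f a b ha hab => (h.cx n j f a b ha hab).trans (by
    have := h.nn
    gcongr)
  cy := fun n f a b ha hab => (h.cy n f a b ha hab).trans (by
    have := h.nn
    gcongr)

theorem single_le (dw : Fin 3 → V3) (l : Fin 3) : ‖dw l‖ ≤ √(∑ l, ‖dw l‖ ^ 2) := by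
  apply Real.le_sqrt_of_sq_le
  exact Finset.single_le_sum (f := fun l => ‖dw l‖ ^ 2) (fun i _ => sq_nonneg _)
    (Finset.mem_univ l)

theorem norm_le_of_inner {X : V3} {K : ℝ} (hK : 0 ≤ K) (h : ∀ f : V3, ⟪f, X⟫_ℝ ≤ K * ‖f‖) :
    ‖X‖ ≤ K := by
  have h1 := h X
  rw [real_inner_self_eq_norm_sq, sq] at h1
  rcases eq_or_lt_of_le (norm_nonneg X) with h0 | h0
  · rw [← h0]
    exact hK
  · exact le_of_mul_le_mul_right h1 h0

end C3

open C3 in
theorem stC3 (hs : SG) (hc : Cal) (h2 : StC2) (htb : StTB) (hid : StId) : StC3 := by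
  obtain ⟨C2, hC2, h2⟩ := h2
  obtain ⟨Ct, hCt, htb⟩ := htb
  refine ⟨16 * Ct * (1 + C2), by positivity, ?_⟩
  intro R hR j n k γ dγ w dw N B hγ hdγ hdw hB hRB
  set S := √(∑ l, ‖dw l‖ ^ 2) with hS
  have hS0 : 0 ≤ S := Real.sqrt_nonneg _
  have hN := hγ.nn
  have hγ1 : Carl ((1 + C2) * N) γ := carl_mono hγ (by nlinarith)
  have hγ2 : ∀ i, Carl ((1 + C2) * N) (R i γ) := fun i => carl_mono (h2 R hR i γ N hγ) (by nlinarith)
  set s : V3 := ∑ i, R i (dw i) with hs_def
  have hsn : ‖s‖ ≤ 3 * S := by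
    refine (norm_sum_le _ _).trans ?_
    have : ∀ i ∈ (Finset.univ : Finset (Fin 3)), ‖R i (dw i)‖ ≤ S := fun i _ =>
      (hR.le i _).trans (single_le dw i)
    refine (Finset.sum_le_card_nsmul _ _ _ this).trans (le_of_eq ?_)
    simp
  have key : ∀ h : V3, ⟪h, tens n w (R j dγ) - R j (tens n w dγ)⟫_ℝ ≤
      16 * Ct * (1 + C2) * N * S * ‖h‖ := by
    intro h
    have hRh : ∀ i, ‖R i h‖ ≤ ‖h‖ := fun i => hR.le i h
    -- the bound of one term
    have one : ∀ (f ψ γ' : V3) (c a b : ℝ), ‖f‖ ≤ ‖h‖ → ‖ψ‖ ≤ c → Carl ((1 + C2) * N) γ' →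
        0 < a → a ≤ b → |∫ y in a..b, T n k f ψ γ' y| ≤ Ct * ((1 + C2) * N) * ‖h‖ * c := by
      intro f ψ γ' c a b hf hψ hγ' ha hab
      refine (htb n k f ψ γ' _ a b ha hab hγ').trans ?_
      have : 0 ≤ Ct * ((1 + C2) * N) := by positivity
      gcongr
    have hbd : ∀ a b : ℝ, 0 < a → a ≤ b →
        |Iy R j n k h w γ b - Iy R j n k h w γ a| ≤ 16 * Ct * (1 + C2) * N * S * ‖h‖ := by
      intro a b ha hab
      set J : ℝ → ℝ := fun y => T n k h (dw j) γ y +
        (∑ i, (T n k (R i h) (dw j) (R i γ) y - T n k (R i h) (dw i) (R j γ) y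
          - T n k (R j h) (dw i) (R i γ) y)) +
        (T n k h s (R j γ) y + T n k (R j h) s γ y) with hJ
      have hder : ∀ y ∈ uIcc a b, HasDerivAt (Iy R j n k h w γ) (J y) y := by
        intro y hy
        rw [uIcc_of_le hab] at hy
        have hy0 : 0 < y := lt_of_lt_of_le ha hy.1
        have h1 := hid R hR j n k h w γ y hy0
        have eD : ∀ i, Dp i y w = Pp y (dw i) := fun i => Dp_eq (hdw i) hy0
        rw [Yp_eq hR hdw hy0] at h1
        simp only [eD] at h1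
        exact h1
      have hI : ∀ f ψ γ', IntervalIntegrable (T n k f ψ γ') volume a b := fun f ψ γ' =>
        intT hs hc n k f ψ γ' ha hab
      have hi1 : ∀ i, IntervalIntegrable (fun y => T n k (R i h) (dw j) (R i γ) y -
          T n k (R i h) (dw i) (R j γ) y - T n k (R j h) (dw i) (R i γ) y) volume a b := fun i =>
        ((hI _ _ _).sub (hI _ _ _)).sub (hI _ _ _)
      have hi2 : IntervalIntegrable (fun y => ∑ i, (T n k (R i h) (dw j) (R i γ) y -
          T n k (R i h) (dw i) (R j γ) y - T n k (R j h) (dw i) (R i γ) y)) volume a b := by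
        have := IntervalIntegrable.sum (Finset.univ : Finset (Fin 3)) (fun i _ => hi1 i)
        simpa [Finset.sum_fn] using this
      have hJi : IntervalIntegrable J volume a b :=
        ((hI _ _ _).add hi2).add ((hI _ _ _).add (hI _ _ _))
      rw [← intervalIntegral.integral_eq_sub_of_hasDerivAt hder hJi]
      have e : ∫ y in a..b, J y = (∫ y in a..b, T n k h (dw j) γ y) +
          (∑ i, ((∫ y in a..b, T n k (R i h) (dw j) (R i γ) y) -
            (∫ y in a..b, T n k (R i h) (dw i) (R j γ) y) -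
            (∫ y in a..b, T n k (R j h) (dw i) (R i γ) y))) +
          ((∫ y in a..b, T n k h s (R j γ) y) + ∫ y in a..b, T n k (R j h) s γ y) := by
        rw [hJ, intervalIntegral.integral_add ((hI _ _ _).add hi2) ((hI _ _ _).add (hI _ _ _)),
          intervalIntegral.integral_add (hI _ _ _) hi2,
          intervalIntegral.integral_add (hI _ _ _) (hI _ _ _),
          intervalIntegral.integral_finsetSum (fun i _ => hi1 i)]
        congr 2
        refine Finset.sum_congr rfl fun i _ => ?_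
        rw [intervalIntegral.integral_sub ((hI _ _ _).sub (hI _ _ _)) (hI _ _ _),
          intervalIntegral.integral_sub (hI _ _ _) (hI _ _ _)]
      rw [e]
      set q := Ct * ((1 + C2) * N) * ‖h‖ * S with hq
      have b1 := one h (dw j) γ S a b le_rfl (single_le dw j) hγ1 ha hab
      have b2 : ∀ i, |(∫ y in a..b, T n k (R i h) (dw j) (R i γ) y) -
            (∫ y in a..b, T n k (R i h) (dw i) (R j γ) y) -
            (∫ y in a..b, T n k (R j h) (dw i) (R i γ) y)| ≤ 3 * q := by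
        intro i
        have c1 := one (R i h) (dw j) (R i γ) S a b (hRh i) (single_le dw j) (hγ2 i) ha hab
        have c2 := one (R i h) (dw i) (R j γ) S a b (hRh i) (single_le dw i) (hγ2 j) ha hab
        have c3 := one (R j h) (dw i) (R i γ) S a b (hRh j) (single_le dw i) (hγ2 i) ha hab
        rw [abs_le] at c1 c2 c3 ⊢
        constructor <;> linarith [c1.1, c1.2, c2.1, c2.2, c3.1, c3.2]
      have b3 := one h s (R j γ) (3 * S) a b le_rfl hsn (hγ2 j) ha hab
      have b4 := one (R j h) s γ (3 * S) a b (hRh j) hsn hγ1 ha hab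
      have e3 : Ct * ((1 + C2) * N) * ‖h‖ * (3 * S) = 3 * q := by rw [hq]; ring
      have e4 : 16 * Ct * (1 + C2) * N * S * ‖h‖ = 16 * q := by rw [hq]; ring
      rw [e3] at b3 b4
      rw [e4, Fin.sum_univ_three]
      have b20 := b2 0
      have b21 := b2 1
      have b22 := b2 2
      rw [abs_le] at b1 b20 b21 b22 b3 b4 ⊢
      constructor <;>
      linarith [b1.1, b1.2, b20.1, b20.2, b21.1, b21.2, b22.1, b22.2, b3.1, b3.2, b4.1, b4.2]
    -- the limits
    have hBabs : Bd dγ |B| := bd_mono' hB (le_abs_self B)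
    have hRBabs : Bd (R j dγ) |B| := bd_mono' hRB (le_abs_self B)
    have hl0 : Tendsto (Iy R j n k h w γ) (𝓝[>] 0)
        (𝓝 (⟪h, tens n w (R j dγ)⟫_ℝ + ⟪R j h, tens n w dγ⟫_ℝ)) := by
      refine ((lim_zero n h w (R j dγ) (abs_nonneg B) hRBabs).add
        (lim_zero n (R j h) w dγ (abs_nonneg B) hBabs)).congr' ?_
      filter_upwards [self_mem_nhdsWithin] with y hy
      rw [Iy, Dp_eq (hR.weak j k _ _ hdγ) hy, Dp_eq hdγ hy]
    have hlT : Tendsto (Iy R j n k h w γ) atTop (𝓝 0) := by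
      have := (lim_top n k h w (R j γ) (hγ2 j)).add (lim_top n k (R j h) w γ hγ1)
      rwa [add_zero] at this
    have hIa : ∀ a : ℝ, 0 < a → |Iy R j n k h w γ a| ≤ 16 * Ct * (1 + C2) * N * S * ‖h‖ := by
      intro a ha
      have h3 : Tendsto (fun b => |Iy R j n k h w γ b - Iy R j n k h w γ a|) atTop
          (𝓝 |0 - Iy R j n k h w γ a|) := (hlT.sub_const _).abs
      rw [zero_sub, abs_neg] at h3
      refine le_of_tendsto h3 ?_
      filter_upwards [eventually_ge_atTop a] with b hb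
      exact hbd a b ha hb
    have hL : |⟪h, tens n w (R j dγ)⟫_ℝ + ⟪R j h, tens n w dγ⟫_ℝ| ≤
        16 * Ct * (1 + C2) * N * S * ‖h‖ := by
      refine le_of_tendsto hl0.abs ?_
      filter_upwards [self_mem_nhdsWithin] with a ha
      exact hIa a ha
    have e : ⟪h, tens n w (R j dγ) - R j (tens n w dγ)⟫_ℝ =
        ⟪h, tens n w (R j dγ)⟫_ℝ + ⟪R j h, tens n w dγ⟫_ℝ := by
      rw [inner_sub_right, hR.anti]; ring
    rw [e]
    exact (le_abs_self _).trans hL
  exact norm_le_of_inner (by positivity) key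

end Pool.Agent.TF
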