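import Pool.Agent.TF.C.C3

/-!
# Block C: the commutator estimate (CC)
-/

set_option autoImplicit false

namespace Pool.Agent.TF

open MeasureTheory Set Filter Topology Pool.Agent.TO Pool.Agent.TB Pool.Agent.TC Pool.Agent.TP
open scoped ENNReal NNReal Real InnerProductSpace SchwartzMap LineDeriv

namespace CC

theorem weak_Wd {R : Fin 3 → V3 →L[ℝ] V3} (hR : RZ R) {k : Fin 3} {f g : V3}
    (h : IsWeakDeriv k f g) (W : List (Fin 3)) : IsWeakDeriv k (Wd R W f) (Wd R W g) := by
  induction W with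
  | nil => exact h
  | cons j W ih => exact hR.weak j k _ _ ih

theorem carl_Wd (h1 : StC1) (h2 : StC2) (W : List (Fin 3)) :
    ∃ C : ℝ, 0 < C ∧ ∀ R, RZ R → ∀ (g : V3) (A : ℝ), 0 ≤ A → Bd g A → Carl (C * A) (Wd R W g) := by
  induction W with
  | nil =>
    obtain ⟨C, hC, h⟩ := h1
    exact ⟨C, hC, fun R _ g A hA hg => h g A hA hg⟩
  | cons j W ih =>
    obtain ⟨C, hC, ih⟩ := ih
    obtain ⟨C2, hC2, h2⟩ := h2
    refine ⟨C2 * C, by positivity, fun R hR g A hA hg => ?_⟩
    have := h2 R hR j _ _ (ih R hR g A hA hg)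
    rw [mul_assoc]
    exact this

end CC

open CC in
theorem stCC (h1 : StC1) (h2 : StC2) (h3 : StC3) : StCC := by
  intro W
  induction W with
  | nil =>
    refine ⟨1, one_pos, ?_⟩
    intro R hR n k g dg w dw A hA hg hdg hdw hB
    have e : tens n w (Wd R [] dg) - Wd R [] (tens n w dg) = 0 := sub_self _
    rw [e, norm_zero]
    positivity
  | cons j W ih =>
    obtain ⟨C, hC, ih⟩ := ih
    obtain ⟨C1, hC1, hcar⟩ := carl_Wd h1 h2 W
    obtain ⟨K, hK, h3⟩ := h3
    refine ⟨K * C1 + C, by positivity, ?_⟩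
    intro R hR n k g dg w dw A hA hg hdg hdw hB
    obtain ⟨B, hBW⟩ := hB W
    obtain ⟨B', hBW'⟩ := hB (j :: W)
    have e : tens n w (Wd R (j :: W) dg) - Wd R (j :: W) (tens n w dg) =
        (tens n w (R j (Wd R W dg)) - R j (tens n w (Wd R W dg))) +
          R j (tens n w (Wd R W dg) - Wd R W (tens n w dg)) := by
      rw [map_sub]
      show tens n w (R j (Wd R W dg)) - R j (Wd R W (tens n w dg)) = _
      abel
    rw [e]
    have c1 := h3 R hR j n k (Wd R W g) (Wd R W dg) w dw (C1 * A) (max B B')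
      (hcar R hR g A hA hg) (weak_Wd hR hdg W) hdw (C3.bd_mono' hBW (le_max_left _ _))
      (C3.bd_mono' hBW' (le_max_right _ _))
    have c2 := ih R hR n k g dg w dw A hA hg hdg hdw hB
    calc _ ≤ _ := norm_add_le _ _
      _ ≤ K * (C1 * A) * √(∑ l, ‖dw l‖ ^ 2) + C * A * √(∑ l, ‖dw l‖ ^ 2) :=
        add_le_add c1 ((hR.le j _).trans c2)
      _ = _ := by ring

end Pool.Agent.TF
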