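import Pool.Agent.TF.Def

/-!
# Block C (commutators): the calculus facts and the sub-statements
-/

set_option autoImplicit false

namespace Pool.Agent.TF

open MeasureTheory Set Filter Topology Pool.Agent.TO Pool.Agent.TB Pool.Agent.TC Pool.Agent.TP
open scoped ENNReal NNReal Real InnerProductSpace SchwartzMap LineDeriv

/-- `∂_l ∂_y P_y` -/
noncomputable def DY (l : Fin 3) (y : ℝ) (f : V3) : V3 := Dp l (y / 2) (Yp (y / 2) f)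

/-- The calculus of products with Poisson extensions (file `C/Tri.lean`). -/
structure Cal : Prop where
  /-- sup bounds for `L²` data -/
  bP : ∀ (y : ℝ), 0 < y → ∀ f, ∃ B, Bd (Pp y f) B
  bD : ∀ j (y : ℝ), 0 < y → ∀ f, ∃ B, Bd (Dp j y f) B
  bY : ∀ (y : ℝ), 0 < y → ∀ f, ∃ B, Bd (Yp y f) B
  /-- derivatives in `y` of products; `G` is any `L²`-differentiable curve -/
  dP : ∀ n (y : ℝ), 0 < y → ∀ f (G : ℝ → V3) (G' : V3), HasDerivAt G G' y →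
    HasDerivAt (fun s => tens n (Pp s f) (G s)) (tens n (Yp y f) (G y) + tens n (Pp y f) G') y
  dY : ∀ n (y : ℝ), 0 < y → ∀ f (G : ℝ → V3) (G' : V3), HasDerivAt G G' y →
    HasDerivAt (fun s => tens n (Yp s f) (G s)) (tens n (YYp y f) (G y) + tens n (Yp y f) G') y
  dD : ∀ n j (y : ℝ), 0 < y → ∀ f (G : ℝ → V3) (G' : V3), HasDerivAt G G' y →
    HasDerivAt (fun s => tens n (Dp j s f) (G s)) (tens n (DY j y f) (G y) + tens n (Dp j y f) G') y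
  /-- weak derivatives of products -/
  wP : ∀ n l (y : ℝ), 0 < y → ∀ f G dG, IsWeakDeriv l G dG →
    IsWeakDeriv l (tens n (Pp y f) G) (tens n (Dp l y f) G + tens n (Pp y f) dG)
  wD : ∀ n l j (y : ℝ), 0 < y → ∀ f G dG, IsWeakDeriv l G dG →
    IsWeakDeriv l (tens n (Dp j y f) G) (tens n (DDp l j y f) G + tens n (Dp j y f) dG)
  wY : ∀ n l (y : ℝ), 0 < y → ∀ f G dG, IsWeakDeriv l G dG →
    IsWeakDeriv l (tens n (Yp y f) G) (tens n (DY l y f) G + tens n (Yp y f) dG)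
  wYp : ∀ l (y : ℝ), 0 < y → ∀ f, IsWeakDeriv l (Yp y f) (DY l y f)
  /-- algebra -/
  addR : ∀ n F B, Bd F B → ∀ G G', tens n F (G + G') = tens n F G + tens n F G'
  subR : ∀ n F B, Bd F B → ∀ G G', tens n F (G - G') = tens n F G - tens n F G'
  smulR : ∀ n F B, Bd F B → ∀ (c : ℝ) G, tens n F (c • G) = c • tens n F G
  sumR : ∀ n F B, Bd F B → ∀ G : Fin 3 → V3, tens n F (∑ k, G k) = ∑ k, tens n F (G k)
  addL : ∀ n F B F' B', Bd F B → Bd F' B' → ∀ G, tens n (F + F') G = tens n F G + tens n F' G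
  subL : ∀ n F B F' B', Bd F B → Bd F' B' → ∀ G, tens n (F - F') G = tens n F G - tens n F' G
  smulL : ∀ n F B, Bd F B → ∀ (c : ℝ) G, tens n (c • F) G = c • tens n F G
  sumL : ∀ n (F : Fin 3 → V3), (∀ k, ∃ B, Bd (F k) B) → ∀ G,
    tens n (∑ k, F k) G = ∑ k, tens n (F k) G
  /-- exchange of the scalar factors -/
  swap : ∀ n F B F' B', Bd F B → Bd F' B' → ∀ G G',
    ⟪tens n F G, tens n F' G'⟫_ℝ = ⟪tens n F' G, tens n F G'⟫_ℝ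
  /-- Cauchy-Schwarz with the middle factor in `L²` -/
  cs : ∀ n F B Θ B', Bd F B → Bd Θ B' → ∀ D,
    |⟪F, tens n Θ D⟫_ℝ| ≤ ‖Θ‖ * ∑ i, ‖tens i F D‖
  /-- parts: `F`, `X` with weak derivatives -/
  parts : ∀ l (F X : V3) (dF dX : Fin 3 → V3), (∀ k, IsWeakDeriv k F (dF k)) →
    (∀ k, IsWeakDeriv k X (dX k)) → ⟪dF l, X⟫_ℝ + ⟪F, dX l⟫_ℝ = 0

/-- (Sq) `∫ y (|∇ P_y f|² + |∂_y P_y f|²) dy ≤ C ‖f‖²` -/
def StSq : Prop := ∃ C : ℝ, 0 < C ∧ ∀ (f : V3) (a b : ℝ), 0 < a → a ≤ b →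
  ∫ y in a..b, y * (∑ j, ‖Dp j y f‖ ^ 2 + ‖Yp y f‖ ^ 2) ≤ C * ‖f‖ ^ 2

/-- (Rel) the Rellich identity: bounds for `∂_y` give bounds for `∇_x` -/
def StRel : Prop := ∃ C : ℝ, 0 < C ∧ ∀ (H : V3) (M : ℝ), 0 ≤ M →
  (∀ j (y : ℝ), 0 < y → Bd (Dp j y H) (M / y)) → (∀ y : ℝ, 0 < y → Bd (Yp y H) (M / y)) →
  (∀ n (f : V3) (a b : ℝ), 0 < a → a ≤ b →
    ∫ y in a..b, y * ‖tens n (Pp y f) (Yp y H)‖ ^ 2 ≤ M ^ 2 * ‖f‖ ^ 2) →
  ∀ n j (f : V3) (a b : ℝ), 0 < a → a ≤ b →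
    ∫ y in a..b, y * ‖tens n (Pp y f) (Dp j y H)‖ ^ 2 ≤ (C * M) ^ 2 * ‖f‖ ^ 2

/-- (Bx) sup bound of `∇ P_y R_j γ` -/
def StBx : Prop := ∃ C : ℝ, 0 < C ∧ ∀ R, RZ R → ∀ (j k : Fin 3) (γ : V3) (N : ℝ), Carl N γ →
  ∀ y : ℝ, 0 < y → Bd (Dp k y (R j γ)) (C * N / y)

/-- (TB) the trilinear bound -/
def StTB : Prop := ∃ C : ℝ, 0 < C ∧ ∀ (n l : Fin 3) (f ψ γ : V3) (N a b : ℝ), 0 < a → a ≤ b →
  Carl N γ → |∫ y in a..b, ⟪Pp y f, tens n (Pp y ψ) (Dp l y γ)⟫_ℝ| ≤ C * N * ‖f‖ * ‖ψ‖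

/-- the form `I(y)` of the commutator -/
noncomputable def Iy (R : Fin 3 → V3 →L[ℝ] V3) (j n l : Fin 3) (h w γ : V3) (y : ℝ) : ℝ :=
  ⟪Pp y h, tens n (Pp y w) (Dp l y (R j γ))⟫_ℝ + ⟪Pp y (R j h), tens n (Pp y w) (Dp l y γ)⟫_ℝ

/-- (Id) the derivative of `I(y)` -/
def StId : Prop := ∀ R, RZ R → ∀ (j n l : Fin 3) (h w γ : V3) (y : ℝ), 0 < y →
  HasDerivAt (Iy R j n l h w γ)
    (⟪Pp y h, tens n (Dp j y w) (Dp l y γ)⟫_ℝ +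
      ∑ k, (⟪Pp y (R k h), tens n (Dp j y w) (Dp l y (R k γ))⟫_ℝ
        - ⟪Pp y (R k h), tens n (Dp k y w) (Dp l y (R j γ))⟫_ℝ
        - ⟪Pp y (R j h), tens n (Dp k y w) (Dp l y (R k γ))⟫_ℝ) +
      (⟪Pp y h, tens n (Yp y w) (Dp l y (R j γ))⟫_ℝ
        + ⟪Pp y (R j h), tens n (Yp y w) (Dp l y γ)⟫_ℝ)) y

end Pool.Agent.TF
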