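import Pool.Agent.TF.C.Tri2
import Pool.Agent.TF.C.Def

/-!
# The calculus facts `Cal`
-/

set_option autoImplicit false

namespace Pool.Agent.TF

open MeasureTheory Set Filter Topology Pool.Agent.TO Pool.Agent.TB Pool.Agent.TC Pool.Agent.TP
open scoped ENNReal NNReal Real InnerProductSpace SchwartzMap LineDeriv

theorem bd_DY_two (l : Fin 3) {y : ℝ} (hy : 0 < y) (f : V3) (hs : SG) : ∃ B, Bd (DY l y f) B :=
  ⟨_, bd_Dp_two hs l (by linarith : 0 < y / 2) _⟩

theorem bd_YYp_two {y : ℝ} (hy : 0 < y) (f : V3) (hs : SG) : ∃ B, Bd (YYp y f) B := by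
  rw [YYp_half hs hy]
  exact ⟨_, bd_Yp_two hs (by linarith : 0 < y / 2) _⟩

theorem bd_DDp_two (i j : Fin 3) {y : ℝ} (hy : 0 < y) (f : V3) (hs : SG) :
    ∃ B, Bd (DDp i j y f) B := by
  rw [DDp_half hs i j hy]
  exact ⟨_, bd_Dp_two hs i (by linarith : 0 < y / 2) _⟩

theorem tens_sum_right (n : Fin 3) {F : V3} {B : ℝ} (hF : Bd F B) (G : Fin 3 → V3) :
    tens n F (∑ k, G k) = ∑ k, tens n F (G k) := by
  rw [Fin.sum_univ_three, Fin.sum_univ_three, tens_addL' hF, tens_addL' hF]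

theorem tens_sum_left (n : Fin 3) (F : Fin 3 → V3) (hF : ∀ k, ∃ B, Bd (F k) B) (G : V3) :
    tens n (∑ k, F k) G = ∑ k, tens n (F k) G := by
  obtain ⟨B0, h0⟩ := hF 0
  obtain ⟨B1, h1⟩ := hF 1
  obtain ⟨B2, h2⟩ := hF 2
  rw [Fin.sum_univ_three, Fin.sum_univ_three, tens_addL (bd_add h0 h1) h2, tens_addL h0 h1]

theorem tens_swap_inner (n : Fin 3) {F F' : V3} {B B' : ℝ} (hF : Bd F B) (hF' : Bd F' B')
    (G G' : V3) : ⟪tens n F G, tens n F' G'⟫_ℝ = ⟪tens n F' G, tens n F G'⟫_ℝ := by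
  rw [L2.inner_def, L2.inner_def]
  apply integral_congr_ae
  filter_upwards [coe_tens_left n hF G, coe_tens_left n hF' G', coe_tens_left n hF' G,
    coe_tens_left n hF G'] with x h1 h2 h3 h4
  rw [h1, h2, h3, h4]
  simp only [inner_smul_left, inner_smul_right, conj_trivial]
  ring

theorem coord_smul_sum (a : E3) (d : E3) (t : ℝ) :
    |⟪a, t • d⟫_ℝ| ≤ |t| * ∑ i, ‖(a i) • d‖ := by
  rw [inner_smul_right, abs_mul]
  apply mul_le_mul_of_nonneg_left _ (abs_nonneg t)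
  rw [PiLp.inner_apply]
  refine (Finset.abs_sum_le_sum_abs _ _).trans ?_
  apply Finset.sum_le_sum
  intro i _
  rw [norm_smul, Real.norm_eq_abs]
  have h1 : |d i| ≤ ‖d‖ := by
    have := PiLp.norm_apply_le d i
    rwa [Real.norm_eq_abs] at this
  calc |⟪a i, d i⟫_ℝ| = |a i| * |d i| := by
        simp only [RCLike.inner_apply, conj_trivial]
        rw [abs_mul, mul_comm]
    _ ≤ |a i| * ‖d‖ := mul_le_mul_of_nonneg_left h1 (abs_nonneg _)

theorem integral_norm_mul_le (f g : V3) :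
    Integrable (fun x => ‖f x‖ * ‖g x‖) (volume : Measure E3) ∧
      ∫ x, ‖f x‖ * ‖g x‖ ≤ ‖f‖ * ‖g‖ := by
  have hi : Integrable (fun x => ‖f x‖ * ‖g x‖) (volume : Measure E3) := by
    refine Integrable.mono' ((integrable_norm_sq_real f).add (integrable_norm_sq_real g))
      ((Lp.aestronglyMeasurable f).norm.mul (Lp.aestronglyMeasurable g).norm)
      (Eventually.of_forall fun x => ?_)
    rw [Real.norm_eq_abs, abs_of_nonneg (by positivity), Pi.add_apply]
    nlinarith [sq_nonneg (‖f x‖ - ‖g x‖), norm_nonneg (f x), norm_nonneg (g x)]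
  refine ⟨hi, ?_⟩
  have key : ∀ t : ℝ, 0 ≤ ‖g‖ ^ 2 * (t * t) + (-2 * ∫ x, ‖f x‖ * ‖g x‖) * t + ‖f‖ ^ 2 := by
    intro t
    have h1 : 0 ≤ ∫ x, (‖f x‖ - t * ‖g x‖) ^ 2 := integral_nonneg fun x => sq_nonneg _
    have h2 : ∫ x, (‖f x‖ - t * ‖g x‖) ^ 2 =
        ‖f‖ ^ 2 + (-(2 * t)) * (∫ x, ‖f x‖ * ‖g x‖) + (t ^ 2) * ‖g‖ ^ 2 := by
      have e : (fun x => (‖f x‖ - t * ‖g x‖) ^ 2) =
          fun x => (‖f x‖ ^ 2 + (-(2 * t)) * (‖f x‖ * ‖g x‖)) + t ^ 2 * ‖g x‖ ^ 2 := by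
        ext x; ring
      have i1 : Integrable (fun x => ‖f x‖ ^ 2 + (-(2 * t)) * (‖f x‖ * ‖g x‖))
          (volume : Measure E3) := (integrable_norm_sq_real f).add (hi.const_mul _)
      rw [e, integral_add i1 ((integrable_norm_sq_real g).const_mul _),
        integral_add (integrable_norm_sq_real f) (hi.const_mul _), integral_const_mul,
        integral_const_mul, ← norm_sq_eq_real, ← norm_sq_eq_real]
    rw [h2] at h1
    linarith
  have h3 := discrim_le_zero key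
  unfold discrim at h3
  have h4 : (∫ x, ‖f x‖ * ‖g x‖) ^ 2 ≤ (‖f‖ * ‖g‖) ^ 2 := by nlinarith
  exact abs_le_of_sq_le_sq' h4 (by positivity) |>.2

theorem tens_cs (n : Fin 3) {F Θ : V3} {B B' : ℝ} (hF : Bd F B) (hΘ : Bd Θ B') (D : V3) :
    |⟪F, tens n Θ D⟫_ℝ| ≤ ‖Θ‖ * ∑ i, ‖tens i F D‖ := by
  have hi : Integrable (fun x => ∑ i, ‖Θ x‖ * ‖(tens i F D : V3) x‖) (volume : Measure E3) :=
    integrable_finsetSum _ fun i _ => (integral_norm_mul_le Θ (tens i F D)).1
  rw [L2.inner_def, Finset.mul_sum]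
  calc |∫ x, ⟪F x, (tens n Θ D : V3) x⟫_ℝ| ≤ ∫ x, ∑ i, ‖Θ x‖ * ‖(tens i F D : V3) x‖ := by
        rw [← Real.norm_eq_abs]
        apply norm_integral_le_of_norm_le hi
        filter_upwards [coe_tens_left n hΘ D, coe_tens_left 0 hF D, coe_tens_left 1 hF D,
          coe_tens_left 2 hF D] with x h1 h2 h3 h4
        rw [h1, Real.norm_eq_abs]
        refine (coord_smul_sum (F x) (D x) (Θ x n)).trans ?_
        rw [← Finset.mul_sum]
        simp only [Fin.sum_univ_three]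
        rw [h2, h3, h4]
        apply mul_le_mul_of_nonneg_right _ (by positivity)
        have := PiLp.norm_apply_le (Θ x) n
        rwa [Real.norm_eq_abs] at this
    _ = ∑ i, ∫ x, ‖Θ x‖ * ‖(tens i F D : V3) x‖ :=
        integral_finsetSum _ fun i _ => (integral_norm_mul_le Θ (tens i F D)).1
    _ ≤ ∑ i, ‖Θ‖ * ‖tens i F D‖ :=
        Finset.sum_le_sum fun i _ => (integral_norm_mul_le Θ (tens i F D)).2

/-- The calculus facts hold. -/
theorem cal (hs : SG) : Cal where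
  bP := fun y hy f => ⟨_, bd_Pp_two hy f⟩
  bD := fun j y hy f => ⟨_, bd_Dp_two hs j hy f⟩
  bY := fun y hy f => ⟨_, bd_Yp_two hs hy f⟩
  dP := fun n y hy f G G' hG => hasDerivAt_tensL (bdD_P hs hy f) (bd_Pp_two hy f)
    (bd_Yp_two hs hy f) hG
  dY := fun n y hy f G G' hG => by
    obtain ⟨B, hB⟩ := bd_YYp_two hy f hs
    exact hasDerivAt_tensL (bdD_Y hs hy f) (bd_Yp_two hs hy f) hB hG
  dD := fun n j y hy f G G' hG => by
    obtain ⟨B, hB⟩ := bd_DY_two j hy f hs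
    exact hasDerivAt_tensL (bdD_D hs j hy f) (bd_Dp_two hs j hy f) hB hG
  wP := fun n l y hy f G dG hG => weak_tensL (dH := fun k => Dp k y f) (fun k => weak_Pp k hy f)
    (bd_Pp_two hy f) (bd_Dp_two hs l hy f) hG
  wD := fun n l j y hy f G dG hG => by
    obtain ⟨B, hB⟩ := bd_DDp_two l j hy f hs
    exact weak_tensL (dH := fun k => DDp k j y f) (fun k => weak_Dp k j hy f)
      (bd_Dp_two hs j hy f) hB hG
  wY := fun n l y hy f G dG hG => by
    obtain ⟨B, hB⟩ := bd_DY_two l hy f hs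
    exact weak_tensL (dH := fun k => DY k y f) (fun k => weak_Yp hs k hy f)
      (bd_Yp_two hs hy f) hB hG
  wYp := fun l y hy f => weak_Yp hs l hy f
  addR := fun n F B hF G G' => tens_addL' hF G G'
  subR := fun n F B hF G G' => by
    have e : G - G' = G + (-1 : ℝ) • G' := by rw [neg_one_smul, sub_eq_add_neg]
    rw [e, tens_addL' hF, tens_smulL' hF, neg_one_smul, sub_eq_add_neg]
  smulR := fun n F B hF c G => tens_smulL' hF c G
  sumR := fun n F B hF G => tens_sum_right n hF G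
  addL := fun n F B F' B' hF hF' G => tens_addL hF hF' G
  subL := fun n F B F' B' hF hF' G => by
    have e : F - F' = F + (-1 : ℝ) • F' := by rw [neg_one_smul, sub_eq_add_neg]
    rw [e, tens_addL hF (bd_smul hF' _), tens_smulL hF', neg_one_smul, sub_eq_add_neg]
  smulL := fun n F B hF c G => tens_smulL hF c G
  sumL := fun n F hF G => tens_sum_left n F hF G
  swap := fun n F B F' B' hF hF' G G' => tens_swap_inner n hF hF' G G'
  cs := fun n F B Θ B' hF hΘ D => tens_cs n hF hΘ D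
  parts := fun l F X dF dX hF hX => by
    rw [weak_parts hF (hX l)]
    ring

end Pool.Agent.TF
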