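import Pool.Agent.TF.C.Def

/-!
# The derivative of the form of the commutator
-/

set_option autoImplicit false

namespace Pool.Agent.TF

open MeasureTheory Set Filter Topology Pool.Agent.TO Pool.Agent.TB Pool.Agent.TC Pool.Agent.TP
open scoped ENNReal NNReal Real InnerProductSpace SchwartzMap LineDeriv

theorem ddk_symm (i j : Fin 3) (y : ℝ) : ddk i j y = ddk j i y := by
  funext x
  unfold ddk
  by_cases h : i = j
  · subst h
    rfl
  · rw [if_neg h, if_neg (Ne.symm h)]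
    ring

theorem DDp_symm (i j : Fin 3) (y : ℝ) (f : V3) : DDp i j y f = DDp j i y f := by
  unfold DDp
  rw [ddk_symm]

theorem id_DDp_half (hs : SG) (i j : Fin 3) {y : ℝ} (hy : 0 < y) (f : V3) :
    DDp i j y f = Dp i (y / 2) (Dp j (y / 2) f) := by
  have h := hs.dd i j (y / 2) (y / 2) (half_pos hy) (half_pos hy) f
  rwa [add_halves] at h

theorem DDp_R (hs : SG) {R : Fin 3 → V3 →L[ℝ] V3} (hR : RZ R) (k l j : Fin 3) {y : ℝ}
    (hy : 0 < y) (f : V3) : DDp k l y (R j f) = DDp j l y (R k f) := by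
  have h := half_pos hy
  rw [id_DDp_half hs k l hy, hR.dp l j _ h, ← id_DDp_half hs k j hy, DDp_symm k j,
    id_DDp_half hs j k hy, ← hR.dp l k _ h, ← id_DDp_half hs j l hy]

theorem DY_R (hs : SG) {R : Fin 3 → V3 →L[ℝ] V3} (hR : RZ R) (l j : Fin 3) {y : ℝ}
    (hy : 0 < y) (f : V3) : DY l y (R j f) = -DDp j l y f := by
  rw [DY, hR.yp j _ (half_pos hy), map_neg, ← id_DDp_half hs l j hy, DDp_symm l j]

theorem DY_sum (hs : SG) {R : Fin 3 → V3 →L[ℝ] V3} (hR : RZ R) (l : Fin 3) {y : ℝ}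
    (hy : 0 < y) (f : V3) : DY l y f = ∑ k, DDp k l y (R k f) := by
  rw [DY, ← hR.sum_dp _ (half_pos hy), map_sum]
  refine Finset.sum_congr rfl fun k _ => ?_
  rw [← id_DDp_half hs l k hy, DDp_symm l k]

theorem id_parts (hc : Cal) (m l n : Fin 3) {y : ℝ} (hy : 0 < y) (f g w : V3) :
    ⟪Dp m y f, tens n (Pp y w) (Dp l y g)⟫_ℝ + (⟪Pp y f, tens n (Dp m y w) (Dp l y g)⟫_ℝ +
      ⟪Pp y f, tens n (Pp y w) (DDp m l y g)⟫_ℝ) = 0 := by
  have h := hc.parts m (Pp y f) (tens n (Pp y w) (Dp l y g)) (fun k => Dp k y f)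
    (fun k => tens n (Dp k y w) (Dp l y g) + tens n (Pp y w) (DDp k l y g))
    (fun k => weak_Pp k hy f)
    (fun k => hc.wP n k y hy w (Dp l y g) (DDp k l y g) (weak_Dp k l hy g))
  rw [inner_add_right] at h
  exact h

theorem stId (hs : SG) (hc : Cal) : StId := by
  intro R hR j n l h w γ y hy
  obtain ⟨B, hB⟩ := hc.bP y hy w
  -- the derivatives of the two inner products
  have d1 : HasDerivAt (fun s => ⟪Pp s h, tens n (Pp s w) (Dp l s (R j γ))⟫_ℝ)
      (⟪Pp y h, tens n (Yp y w) (Dp l y (R j γ)) + tens n (Pp y w) (DY l y (R j γ))⟫_ℝ +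
        ⟪Yp y h, tens n (Pp y w) (Dp l y (R j γ))⟫_ℝ) y :=
    (deriv_Pp hy h).inner ℝ (hc.dP n y hy w (fun s => Dp l s (R j γ)) (DY l y (R j γ))
      (hs.dyd l y hy (R j γ)))
  have d2 : HasDerivAt (fun s => ⟪Pp s (R j h), tens n (Pp s w) (Dp l s γ)⟫_ℝ)
      (⟪Pp y (R j h), tens n (Yp y w) (Dp l y γ) + tens n (Pp y w) (DY l y γ)⟫_ℝ +
        ⟪Yp y (R j h), tens n (Pp y w) (Dp l y γ)⟫_ℝ) y :=
    (deriv_Pp hy (R j h)).inner ℝ (hc.dP n y hy w (fun s => Dp l s γ) (DY l y γ)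
      (hs.dyd l y hy γ))
  refine (d1.add d2).congr_deriv ?_
  have e1 : DY l y (R j γ) = -DDp j l y γ := DY_R hs hR l j hy γ
  have e2 : DY l y γ = ∑ k, DDp k l y (R k γ) := DY_sum hs hR l hy γ
  have e3 : Yp y h = ∑ k, Dp k y (R k h) := (hR.sum_dp y hy h).symm
  have e4 : Yp y (R j h) = -Dp j y h := hR.yp j y hy h
  have e5 : tens n (Pp y w) (-DDp j l y γ) = -tens n (Pp y w) (DDp j l y γ) := by
    have := hc.smulR n (Pp y w) B hB (-1) (DDp j l y γ)
    rwa [neg_one_smul, neg_one_smul] at this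
  have e6 : tens n (Pp y w) (∑ k, DDp k l y (R k γ)) =
      ∑ k, tens n (Pp y w) (DDp k l y (R k γ)) :=
    hc.sumR n (Pp y w) B hB (fun k => DDp k l y (R k γ))
  rw [e1, e2, e3, e4, e5, e6, inner_add_right, inner_add_right, inner_neg_right, inner_neg_left,
    sum_inner, inner_sum]
  -- the integrations by parts
  have p0 := id_parts hc j l n hy h γ w
  have p1 : ∀ k : Fin 3, ⟪Dp k y (R k h), tens n (Pp y w) (Dp l y (R j γ))⟫_ℝ =
      -⟪Pp y (R k h), tens n (Dp k y w) (Dp l y (R j γ))⟫_ℝ -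
        ⟪Pp y (R k h), tens n (Pp y w) (DDp j l y (R k γ))⟫_ℝ := by
    intro k
    have := id_parts hc k l n hy (R k h) (R j γ) w
    rw [DDp_R hs hR k l j hy γ] at this
    linarith
  have p2 : ∀ k : Fin 3, ⟪Pp y (R j h), tens n (Pp y w) (DDp k l y (R k γ))⟫_ℝ =
      -⟪Dp j y (R k h), tens n (Pp y w) (Dp l y (R k γ))⟫_ℝ -
        ⟪Pp y (R j h), tens n (Dp k y w) (Dp l y (R k γ))⟫_ℝ := by
    intro k
    have := id_parts hc k l n hy (R j h) (R k γ) w
    rw [hR.dp k j y hy h] at this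
    linarith
  have p3 : ∀ k : Fin 3, ⟪Pp y (R k h), tens n (Dp j y w) (Dp l y (R k γ))⟫_ℝ =
      -⟪Dp j y (R k h), tens n (Pp y w) (Dp l y (R k γ))⟫_ℝ -
        ⟪Pp y (R k h), tens n (Pp y w) (DDp j l y (R k γ))⟫_ℝ := by
    intro k
    have := id_parts hc j l n hy (R k h) (R k γ) w
    linarith
  simp only [Fin.sum_univ_three]
  rw [p1 0, p1 1, p1 2, p2 0, p2 1, p2 2, p3 0, p3 1, p3 2]
  linarith

end Pool.Agent.TF
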