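import Pool.Agent.TF.C.Def

/-!
# Block C: the Rellich identity
-/

set_option autoImplicit false

namespace Pool.Agent.TF

open MeasureTheory Set Filter Topology Pool.Agent.TO Pool.Agent.TB Pool.Agent.TC Pool.Agent.TP
open scoped ENNReal NNReal Real InnerProductSpace SchwartzMap LineDeriv

namespace RelC

theorem int_le {g g' φ : ℝ → ℝ} {a b : ℝ} (ha : 0 < a) (hab : a ≤ b)
    (hg : ∀ y, 0 < y → HasDerivAt g (g' y) y) (hφ : ContinuousOn φ (Ioi 0))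
    (h : ∀ y, 0 < y → φ y ≤ g' y) : ∫ y in a..b, φ y ≤ g b - g a := by
  apply intervalIntegral.integral_le_sub_of_hasDeriv_right_of_le hab (g' := g')
  · intro y hy
    exact (hg y (lt_of_lt_of_le ha hy.1)).continuousAt.continuousWithinAt
  · intro y hy
    exact (hg y (ha.trans hy.1)).hasDerivWithinAt
  · exact (hφ.mono fun y hy => lt_of_lt_of_le ha hy.1).integrableOn_Icc
  · intro y hy
    exact h y (ha.trans hy.1)

variable {n : Fin 3} {f H : V3}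

theorem derX (hs : SG) (hc : Cal) (n k : Fin 3) (f H : V3) {y : ℝ} (hy : 0 < y) :
    HasDerivAt (fun s => tens n (Pp s f) (Dp k s H))
      (tens n (Yp y f) (Dp k y H) + tens n (Pp y f) (DY k y H)) y :=
  hc.dP n y hy f (fun s => Dp k s H) (DY k y H) (hs.dyd k y hy H)

theorem derZ (hc : Cal) (n : Fin 3) (f H : V3) {y : ℝ} (hy : 0 < y) :
    HasDerivAt (fun s => tens n (Pp s f) (Yp s H))
      (tens n (Yp y f) (Yp y H) + tens n (Pp y f) (YYp y H)) y :=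
  hc.dP n y hy f (fun s => Yp s H) (YYp y H) (deriv_Yp hy H)

/-- the divergence identity -/
theorem ident (hc : Cal) (n : Fin 3) (f H : V3) {y : ℝ} (hy : 0 < y) :
    ∑ k, ⟪tens n (Pp y f) (Dp k y H), tens n (Pp y f) (DY k y H)⟫_ℝ
      - ⟪tens n (Pp y f) (Yp y H), tens n (Pp y f) (YYp y H)⟫_ℝ =
    -(2 * ∑ k, ⟪tens n (Pp y f) (Dp k y H), tens n (Dp k y f) (Yp y H)⟫_ℝ) := by
  obtain ⟨B, hB⟩ := hc.bP y hy f
  have hP : ∀ k, ⟪tens n (Dp k y f) (Dp k y H) + tens n (Pp y f) (DDp k k y H),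
      tens n (Pp y f) (Yp y H)⟫_ℝ + ⟪tens n (Pp y f) (Dp k y H),
      tens n (Dp k y f) (Yp y H) + tens n (Pp y f) (DY k y H)⟫_ℝ = 0 := by
    intro k
    exact hc.parts k (tens n (Pp y f) (Dp k y H)) (tens n (Pp y f) (Yp y H))
      (fun l => tens n (Dp l y f) (Dp k y H) + tens n (Pp y f) (DDp l k y H))
      (fun l => tens n (Dp l y f) (Yp y H) + tens n (Pp y f) (DY l y H))
      (fun l => hc.wP n l y hy f _ _ (weak_Dp l k hy H))
      (fun l => hc.wP n l y hy f _ _ (hc.wYp l y hy H))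
  have hswap : ∀ k, ⟪tens n (Dp k y f) (Dp k y H), tens n (Pp y f) (Yp y H)⟫_ℝ =
      ⟪tens n (Pp y f) (Dp k y H), tens n (Dp k y f) (Yp y H)⟫_ℝ := by
    intro k
    obtain ⟨B', hB'⟩ := hc.bD k y hy f
    exact hc.swap n _ B' _ B hB' hB _ _
  have hsum : ∑ k, tens n (Pp y f) (DDp k k y H) = -tens n (Pp y f) (YYp y H) := by
    rw [← hc.sumR n _ B hB, sum_DDp hy, ← neg_one_smul ℝ (YYp y H), hc.smulR n _ B hB,
      neg_one_smul]
  have h1 : ∑ k, (⟪tens n (Dp k y f) (Dp k y H) + tens n (Pp y f) (DDp k k y H),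
      tens n (Pp y f) (Yp y H)⟫_ℝ + ⟪tens n (Pp y f) (Dp k y H),
      tens n (Dp k y f) (Yp y H) + tens n (Pp y f) (DY k y H)⟫_ℝ) = 0 :=
    Finset.sum_eq_zero fun k _ => hP k
  simp only [inner_add_left, inner_add_right, hswap] at h1
  rw [Finset.sum_add_distrib, Finset.sum_add_distrib, Finset.sum_add_distrib, ← sum_inner, hsum,
    inner_neg_left, real_inner_comm] at h1
  linarith

/-- the derivative of `φ = ∑ |F ∂_k H|² - |F ∂_y H|²` -/
theorem derφ (hs : SG) (hc : Cal) (n : Fin 3) (f H : V3) {y : ℝ} (hy : 0 < y) :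
    HasDerivAt (fun s => ∑ k, ‖tens n (Pp s f) (Dp k s H)‖ ^ 2 - ‖tens n (Pp s f) (Yp s H)‖ ^ 2)
      (2 * ∑ k, ⟪tens n (Pp y f) (Dp k y H), tens n (Yp y f) (Dp k y H)⟫_ℝ
        - 2 * ⟪tens n (Pp y f) (Yp y H), tens n (Yp y f) (Yp y H)⟫_ℝ
        - 4 * ∑ k, ⟪tens n (Pp y f) (Dp k y H), tens n (Dp k y f) (Yp y H)⟫_ℝ) y := by
  have h1 : HasDerivAt (fun s => ∑ k, ‖tens n (Pp s f) (Dp k s H)‖ ^ 2)
      (∑ k, 2 * ⟪tens n (Pp y f) (Dp k y H),
        tens n (Yp y f) (Dp k y H) + tens n (Pp y f) (DY k y H)⟫_ℝ) y := by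
    have := HasDerivAt.fun_sum (u := Finset.univ) fun (k : Fin 3) _ =>
      (derX hs hc n k f H hy).norm_sq
    exact this
  have h2 := (derZ hc n f H hy).norm_sq
  refine (h1.sub h2).congr_deriv ?_
  have hi := ident hc n f H hy
  simp only [inner_add_right, mul_add]
  rw [Finset.sum_add_distrib, ← Finset.mul_sum, ← Finset.mul_sum]
  linarith

/-- one term of the error -/
theorem young {M y a b x e : ℝ} (hy : 0 < y) (he : 0 < e)
    (hx : |x| ≤ a * (M / y * b)) : y ^ 2 * x ≤ y * (e * a ^ 2 + M ^ 2 / (4 * e) * b ^ 2) := by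
  have h1 : y ^ 2 * x ≤ y ^ 2 * (a * (M / y * b)) :=
    mul_le_mul_of_nonneg_left ((le_abs_self x).trans hx) (by positivity)
  have h2 : y ^ 2 * (a * (M / y * b)) = y * (a * (M * b)) := by field_simp
  rw [h2] at h1
  refine h1.trans (mul_le_mul_of_nonneg_left ?_ hy.le)
  have h3 : 0 ≤ (2 * e * a - M * b) ^ 2 := sq_nonneg _
  have h4 : e * a ^ 2 + M ^ 2 / (4 * e) * b ^ 2 - a * (M * b) = (2 * e * a - M * b) ^ 2 / (4 * e) := by
    field_simp; ring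
  have h5 : 0 ≤ (2 * e * a - M * b) ^ 2 / (4 * e) := by positivity
  linarith

theorem contX (hs : SG) (hc : Cal) (n k : Fin 3) (f H : V3) :
    ContinuousOn (fun y => ‖tens n (Pp y f) (Dp k y H)‖ ^ 2) (Ioi 0) := fun _ hy =>
  (derX hs hc n k f H hy).norm_sq.continuousAt.continuousWithinAt

theorem contZ (hc : Cal) (n : Fin 3) (f H : V3) :
    ContinuousOn (fun y => ‖tens n (Pp y f) (Yp y H)‖ ^ 2) (Ioi 0) := fun _ hy =>
  (derZ hc n f H hy).norm_sq.continuousAt.continuousWithinAt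

theorem contq (hs : SG) (f : V3) :
    ContinuousOn (fun y => ∑ j, ‖Dp j y f‖ ^ 2 + ‖Yp y f‖ ^ 2) (Ioi 0) := by
  refine ContinuousOn.add (continuousOn_finsetSum _ fun j _ => fun y hy => ?_) fun y hy => ?_
  · exact (hs.dyd j y hy f).norm_sq.continuousAt.continuousWithinAt
  · exact (deriv_Yp (show 0 < y from hy) f).norm_sq.continuousAt.continuousWithinAt

theorem ii {g : ℝ → ℝ} (hg : ContinuousOn g (Ioi 0)) {a b : ℝ} (ha : 0 < a) (hab : a ≤ b) :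
    IntervalIntegrable g volume a b := by
  apply ContinuousOn.intervalIntegrable
  rw [uIcc_of_le hab]
  exact hg.mono fun y hy => lt_of_lt_of_le ha hy.1

/-- the pointwise inequality -/
theorem pointwise (n : Fin 3) (f H : V3) {M : ℝ}
    (hx : ∀ j (y : ℝ), 0 < y → Bd (Dp j y H) (M / y)) (hz : ∀ y : ℝ, 0 < y → Bd (Yp y H) (M / y))
    {y : ℝ} (hy : 0 < y) :
    y * (3 / 4 * ∑ k, ‖tens n (Pp y f) (Dp k y H)‖ ^ 2 - 3 / 2 * ‖tens n (Pp y f) (Yp y H)‖ ^ 2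
      - 8 * M ^ 2 * (∑ j, ‖Dp j y f‖ ^ 2 + ‖Yp y f‖ ^ 2)) ≤
    y * (∑ k, ‖tens n (Pp y f) (Dp k y H)‖ ^ 2 - ‖tens n (Pp y f) (Yp y H)‖ ^ 2) +
      y ^ 2 / 2 * (2 * ∑ k, ⟪tens n (Pp y f) (Dp k y H), tens n (Yp y f) (Dp k y H)⟫_ℝ
        - 2 * ⟪tens n (Pp y f) (Yp y H), tens n (Yp y f) (Yp y H)⟫_ℝ
        - 4 * ∑ k, ⟪tens n (Pp y f) (Dp k y H), tens n (Dp k y f) (Yp y H)⟫_ℝ) := by
  have t1 : ∀ k, y ^ 2 * (-⟪tens n (Pp y f) (Dp k y H), tens n (Yp y f) (Dp k y H)⟫_ℝ) ≤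
      y * (1 / 8 * ‖tens n (Pp y f) (Dp k y H)‖ ^ 2 + M ^ 2 / (4 * (1 / 8)) * ‖Yp y f‖ ^ 2) := by
    intro k
    refine young hy (by norm_num) ?_
    rw [abs_neg]
    exact (abs_real_inner_le_norm _ _).trans
      (mul_le_mul_of_nonneg_left (norm_tens_right_le n _ (hx k y hy)) (norm_nonneg _))
  have t2 : y ^ 2 * ⟪tens n (Pp y f) (Yp y H), tens n (Yp y f) (Yp y H)⟫_ℝ ≤
      y * (1 / 2 * ‖tens n (Pp y f) (Yp y H)‖ ^ 2 + M ^ 2 / (4 * (1 / 2)) * ‖Yp y f‖ ^ 2) := by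
    refine young hy (by norm_num) ?_
    exact (abs_real_inner_le_norm _ _).trans
      (mul_le_mul_of_nonneg_left (norm_tens_right_le n _ (hz y hy)) (norm_nonneg _))
  have t3 : ∀ k, y ^ 2 * ⟪tens n (Pp y f) (Dp k y H), tens n (Dp k y f) (Yp y H)⟫_ℝ ≤
      y * (1 / 16 * ‖tens n (Pp y f) (Dp k y H)‖ ^ 2 +
        M ^ 2 / (4 * (1 / 16)) * ‖Dp k y f‖ ^ 2) := by
    intro k
    refine young hy (by norm_num) ?_
    exact (abs_real_inner_le_norm _ _).trans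
      (mul_le_mul_of_nonneg_left (norm_tens_right_le n _ (hz y hy)) (norm_nonneg _))
  have hpos : 0 ≤ y * (M ^ 2 * ‖Yp y f‖ ^ 2) := by positivity
  simp only [Fin.sum_univ_three]
  have a0 := t1 0
  have a1 := t1 1
  have a2 := t1 2
  have b0 := t3 0
  have b1 := t3 1
  have b2 := t3 2
  norm_num at a0 a1 a2 b0 b1 b2 t2
  nlinarith [a0, a1, a2, b0, b1, b2, t2, hpos]

end RelC

open RelC in
theorem stRel (hs : SG) (hc : Cal) (hq : StSq) : StRel := by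
  obtain ⟨Q, hQ, hq⟩ := hq
  refine ⟨5 + 11 * Q, by positivity, ?_⟩
  intro H M hM hx hz hcy n j f a b ha hab
  -- the primitive
  set φ : ℝ → ℝ := fun s =>
    ∑ k, ‖tens n (Pp s f) (Dp k s H)‖ ^ 2 - ‖tens n (Pp s f) (Yp s H)‖ ^ 2 with hφ
  set φ' : ℝ → ℝ := fun y => 2 * ∑ k, ⟪tens n (Pp y f) (Dp k y H), tens n (Yp y f) (Dp k y H)⟫_ℝ
        - 2 * ⟪tens n (Pp y f) (Yp y H), tens n (Yp y f) (Yp y H)⟫_ℝ
        - 4 * ∑ k, ⟪tens n (Pp y f) (Dp k y H), tens n (Dp k y f) (Yp y H)⟫_ℝ with hφ'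
  set X : ℝ → ℝ := fun y => ∑ k, ‖tens n (Pp y f) (Dp k y H)‖ ^ 2 with hX
  set Z : ℝ → ℝ := fun y => ‖tens n (Pp y f) (Yp y H)‖ ^ 2 with hZ
  set q : ℝ → ℝ := fun y => ∑ j, ‖Dp j y f‖ ^ 2 + ‖Yp y f‖ ^ 2 with hqd
  have cX : ContinuousOn X (Ioi 0) := continuousOn_finsetSum _ fun k _ => contX hs hc n k f H
  have cZ : ContinuousOn Z (Ioi 0) := contZ hc n f H
  have cq : ContinuousOn q (Ioi 0) := contq hs f
  have hΨ : ∀ y, 0 < y → HasDerivAt (fun s => s ^ 2 / 2 * φ s) (y * φ y + y ^ 2 / 2 * φ' y) y := by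
    intro y hy
    have h1 : HasDerivAt (fun s : ℝ => s ^ 2 / 2) y y := by
      have := (hasDerivAt_pow 2 y).div_const 2
      refine this.congr_deriv ?_
      norm_num
    exact h1.mul (derφ hs hc n f H hy)
  have hcont : ContinuousOn (fun y => y * (3 / 4 * X y - 3 / 2 * Z y - 8 * M ^ 2 * q y))
      (Ioi 0) :=
    continuousOn_id.mul (((continuousOn_const.mul cX).sub (continuousOn_const.mul cZ)).sub
      (continuousOn_const.mul cq))
  have hint := int_le ha hab hΨ hcont fun y hy => pointwise n f H hx hz hy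
  have iX : IntervalIntegrable (fun y => y * X y) volume a b := ii (continuousOn_id.mul cX) ha hab
  have iZ : IntervalIntegrable (fun y => y * Z y) volume a b := ii (continuousOn_id.mul cZ) ha hab
  have iq : IntervalIntegrable (fun y => y * q y) volume a b := ii (continuousOn_id.mul cq) ha hab
  have e1 : ∫ y in a..b, y * (3 / 4 * X y - 3 / 2 * Z y - 8 * M ^ 2 * q y) =
      3 / 4 * (∫ y in a..b, y * X y) - 3 / 2 * (∫ y in a..b, y * Z y) -
        8 * M ^ 2 * ∫ y in a..b, y * q y := by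
    rw [← intervalIntegral.integral_const_mul, ← intervalIntegral.integral_const_mul,
      ← intervalIntegral.integral_const_mul, ← intervalIntegral.integral_sub (iX.const_mul _)
        (iZ.const_mul _), ← intervalIntegral.integral_sub ((iX.const_mul _).sub (iZ.const_mul _))
        (iq.const_mul _)]
    congr 1
    ext y
    ring
  rw [e1] at hint
  have h1 : ∫ y in a..b, y * Z y ≤ M ^ 2 * ‖f‖ ^ 2 := hcy n f a b ha hab
  have h2 : ∫ y in a..b, y * q y ≤ Q * ‖f‖ ^ 2 := hq f a b ha hab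
  -- the boundary terms
  have bX : ∀ y, 0 < y → y ^ 2 * X y ≤ 3 * (M ^ 2 * ‖f‖ ^ 2) := by
    intro y hy
    have : ∀ k ∈ (Finset.univ : Finset (Fin 3)), y ^ 2 * ‖tens n (Pp y f) (Dp k y H)‖ ^ 2 ≤
        M ^ 2 * ‖f‖ ^ 2 := by
      intro k _
      have h3 := norm_tens_right_le n (Pp y f) (hx k y hy)
      have h4 : ‖tens n (Pp y f) (Dp k y H)‖ ≤ M / y * ‖f‖ :=
        h3.trans (mul_le_mul_of_nonneg_left (norm_Pp_le hy f) (by positivity))
      calc y ^ 2 * ‖tens n (Pp y f) (Dp k y H)‖ ^ 2 ≤ y ^ 2 * (M / y * ‖f‖) ^ 2 := by gcongr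
        _ = M ^ 2 * ‖f‖ ^ 2 := by field_simp
    rw [hX]
    simp only
    rw [Finset.mul_sum]
    refine (Finset.sum_le_card_nsmul _ _ _ this).trans (le_of_eq ?_)
    simp
  have bZ : ∀ y, 0 < y → y ^ 2 * Z y ≤ M ^ 2 * ‖f‖ ^ 2 := by
    intro y hy
    have h3 := norm_tens_right_le n (Pp y f) (hz y hy)
    have h4 : ‖tens n (Pp y f) (Yp y H)‖ ≤ M / y * ‖f‖ :=
      h3.trans (mul_le_mul_of_nonneg_left (norm_Pp_le hy f) (by positivity))
    calc y ^ 2 * ‖tens n (Pp y f) (Yp y H)‖ ^ 2 ≤ y ^ 2 * (M / y * ‖f‖) ^ 2 := by gcongr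
      _ = M ^ 2 * ‖f‖ ^ 2 := by field_simp
  have hb : 0 < b := lt_of_lt_of_le ha hab
  have b1 := bX b hb
  have b2 := bZ a ha
  have nZ : 0 ≤ b ^ 2 * Z b := by positivity
  have nX : 0 ≤ a ^ 2 * X a := by
    have : 0 ≤ X a := Finset.sum_nonneg fun k _ => sq_nonneg _
    positivity
  have eb : b ^ 2 / 2 * φ b - a ^ 2 / 2 * φ a ≤ 2 * (M ^ 2 * ‖f‖ ^ 2) := by
    have e2 : φ b = X b - Z b := rfl
    have e3 : φ a = X a - Z a := rfl
    rw [e2, e3]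
    nlinarith
  have h5 : ∫ y in a..b, y * X y ≤ (5 + 11 * Q) * (M ^ 2 * ‖f‖ ^ 2) := by
    have hM2 : 0 ≤ M ^ 2 := sq_nonneg M
    have h6 : M ^ 2 * (∫ y in a..b, y * q y) ≤ M ^ 2 * (Q * ‖f‖ ^ 2) :=
      mul_le_mul_of_nonneg_left h2 hM2
    have h7 : 0 ≤ M ^ 2 * ‖f‖ ^ 2 := by positivity
    have h8 : 0 ≤ Q * (M ^ 2 * ‖f‖ ^ 2) := by positivity
    nlinarith
  have h9 : ∫ y in a..b, y * ‖tens n (Pp y f) (Dp j y H)‖ ^ 2 ≤ ∫ y in a..b, y * X y := by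
    apply intervalIntegral.integral_mono_on hab
      (ii (continuousOn_id.mul (contX hs hc n j f H)) ha hab) iX
    intro y hy
    have hy0 : 0 < y := lt_of_lt_of_le ha hy.1
    apply mul_le_mul_of_nonneg_left _ hy0.le
    exact Finset.single_le_sum (f := fun k => ‖tens n (Pp y f) (Dp k y H)‖ ^ 2)
      (fun k _ => sq_nonneg _) (Finset.mem_univ j)
  refine h9.trans (h5.trans ?_)
  have h10 : (5 + 11 * Q) ≤ (5 + 11 * Q) ^ 2 := by nlinarith
  have h7 : 0 ≤ M ^ 2 * ‖f‖ ^ 2 := by positivity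
  calc (5 + 11 * Q) * (M ^ 2 * ‖f‖ ^ 2) ≤ (5 + 11 * Q) ^ 2 * (M ^ 2 * ‖f‖ ^ 2) :=
        mul_le_mul_of_nonneg_right h10 h7
    _ = _ := by ring

end Pool.Agent.TF
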