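import Pool.Agent.TF.C.Cal

/-!
# The square function of the Poisson extension
-/

set_option autoImplicit false

namespace Pool.Agent.TF

open MeasureTheory Set Filter Topology Pool.Agent.TO Pool.Agent.TB Pool.Agent.TC Pool.Agent.TP
open scoped ENNReal NNReal Real InnerProductSpace SchwartzMap LineDeriv

/-- the energy density at the height `y` -/
noncomputable def eS (f : V3) (y : ℝ) : ℝ := ∑ j, ‖Dp j y f‖ ^ 2 + ‖Yp y f‖ ^ 2

theorem inner_Pp_YYp {y : ℝ} (hy : 0 < y) (f : V3) :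
    ⟪Pp y f, YYp y f⟫_ℝ = ∑ j, ‖Dp j y f‖ ^ 2 := by
  have h1 : YYp y f = -∑ k, DDp k k y f := by rw [sum_DDp hy, neg_neg]
  rw [h1, inner_neg_right, inner_sum, ← Finset.sum_neg_distrib]
  refine Finset.sum_congr rfl fun k _ => ?_
  have h2 := weak_parts (f := Pp y f) (g := Dp k y f) (df := fun k => Dp k y f)
    (dg := fun _ => DDp k k y f) (k := k) (fun k => weak_Pp k hy f) (weak_Dp k k hy f)
  rw [← real_inner_self_eq_norm_sq, h2]

theorem continuousOn_eS (hs : SG) (f : V3) : ContinuousOn (eS f) (Ioi 0) := by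
  unfold eS
  refine ContinuousOn.add (continuousOn_finsetSum _ fun j _ => ?_) ?_
  · exact ContinuousOn.pow (ContinuousOn.norm fun y hy =>
      (hs.dyd j y hy f).continuousAt.continuousWithinAt) 2
  · exact ContinuousOn.pow (ContinuousOn.norm fun y hy =>
      (deriv_Yp hy f).continuousAt.continuousWithinAt) 2

theorem integrable_eS (hs : SG) (f : V3) {a b : ℝ} (ha : 0 < a) (hab : a ≤ b) :
    IntervalIntegrable (fun y => y * eS f y) volume a b := by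
  apply ContinuousOn.intervalIntegrable
  refine continuousOn_id.mul ((continuousOn_eS hs f).mono ?_)
  rw [uIcc_of_le hab]
  intro x hx
  exact ha.trans_le hx.1

theorem hasDerivAt_Phi {y : ℝ} (hy : 0 < y) (f : V3) :
    HasDerivAt (fun y => y * ⟪Pp y f, Yp y f⟫_ℝ - ‖Pp y f‖ ^ 2 / 2) (y * eS f y) y := by
  have h1 : HasDerivAt (fun y => ⟪Pp y f, Yp y f⟫_ℝ)
      (⟪Pp y f, YYp y f⟫_ℝ + ⟪Yp y f, Yp y f⟫_ℝ) y := (deriv_Pp hy f).inner ℝ (deriv_Yp hy f)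
  have h2 : HasDerivAt (fun y => ‖Pp y f‖ ^ 2) (2 * ⟪Pp y f, Yp y f⟫_ℝ) y := by
    have h3 := (deriv_Pp hy f).inner ℝ (deriv_Pp hy f)
    simp only [real_inner_self_eq_norm_sq] at h3
    refine h3.congr_deriv ?_
    rw [real_inner_comm (Pp y f) (Yp y f)]
    ring
  have h4 := ((hasDerivAt_id y).mul h1).sub (h2.div_const 2)
  refine h4.congr_deriv ?_
  rw [inner_Pp_YYp hy, real_inner_self_eq_norm_sq]
  unfold eS
  simp only [id]
  ring

theorem abs_y_inner {y : ℝ} (hy : 0 < y) (f : V3) :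
    |y * ⟪Pp y f, Yp y f⟫_ℝ| ≤ 4 * ‖f‖ ^ 2 := by
  rw [abs_mul, abs_of_pos hy]
  have h1 := abs_real_inner_le_norm (Pp y f) (Yp y f)
  have h2 := norm_Pp_le hy f
  have h3 := norm_Yp_le hy f
  calc y * |⟪Pp y f, Yp y f⟫_ℝ| ≤ y * (‖Pp y f‖ * ‖Yp y f‖) := by gcongr
    _ ≤ y * (‖f‖ * (4 / y * ‖f‖)) := by gcongr
    _ = _ := by field_simp

/-- the square function estimate -/
theorem stSq (hs : SG) : StSq := by
  refine ⟨9, by norm_num, fun f a b ha hab => ?_⟩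
  have h1 : ∫ y in a..b, y * eS f y = (b * ⟪Pp b f, Yp b f⟫_ℝ - ‖Pp b f‖ ^ 2 / 2) -
      (a * ⟪Pp a f, Yp a f⟫_ℝ - ‖Pp a f‖ ^ 2 / 2) := by
    refine intervalIntegral.integral_eq_sub_of_hasDerivAt
      (f := fun y => y * ⟪Pp y f, Yp y f⟫_ℝ - ‖Pp y f‖ ^ 2 / 2) (fun y hy => ?_)
      (integrable_eS hs f ha hab)
    rw [uIcc_of_le hab] at hy
    exact hasDerivAt_Phi (ha.trans_le hy.1) f
  change ∫ y in a..b, y * eS f y ≤ 9 * ‖f‖ ^ 2
  rw [h1]
  have h2 := (abs_le.1 (abs_y_inner (ha.trans_le hab) f)).2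
  have h3 := (abs_le.1 (abs_y_inner ha f)).1
  have h4 : ‖Pp a f‖ ^ 2 ≤ ‖f‖ ^ 2 := pow_le_pow_left₀ (norm_nonneg _) (norm_Pp_le ha f) 2
  nlinarith [sq_nonneg ‖Pp b f‖, sq_nonneg ‖f‖]

end Pool.Agent.TF
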