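import Pool.Agent.TF.C.Rel
import Pool.Agent.TF.C.C3

/-!
# Project TF, block C: the trilinear bound (helper38)
-/

set_option autoImplicit false

namespace Pool.Agent.TF

open MeasureTheory Set Filter Topology Pool.Agent.TO Pool.Agent.TB Pool.Agent.TC Pool.Agent.TP
open scoped ENNReal NNReal Real InnerProductSpace SchwartzMap LineDeriv

namespace TBC

/-- Cauchy-Schwarz with the weight `y` -/
theorem cs_int {p q : ℝ → ℝ} (hp : ContinuousOn p (Ioi 0)) (hq : ContinuousOn q (Ioi 0))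
    {a b : ℝ} (ha : 0 < a) (hab : a ≤ b) {A B : ℝ} (hA : 0 ≤ A) (hB : 0 ≤ B)
    (h1 : ∫ y in a..b, y * p y ^ 2 ≤ A ^ 2) (h2 : ∫ y in a..b, y * q y ^ 2 ≤ B ^ 2) :
    ∫ y in a..b, y * (p y * q y) ≤ A * B := by
  set I := ∫ y in a..b, y * (p y * q y) with hI
  have i1 : IntervalIntegrable (fun y => y * p y ^ 2) volume a b :=
    RelC.ii (continuousOn_id.mul (hp.pow 2)) ha hab
  have i2 : IntervalIntegrable (fun y => y * q y ^ 2) volume a b :=
    RelC.ii (continuousOn_id.mul (hq.pow 2)) ha hab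
  have i3 : IntervalIntegrable (fun y => y * (p y * q y)) volume a b :=
    RelC.ii (continuousOn_id.mul (hp.mul hq)) ha hab
  have key : ∀ ε : ℝ, 0 < ε → I ≤ (A + ε) * (B + ε) := by
    intro ε hε
    have hA' : 0 < A + ε := by linarith
    have hB' : 0 < B + ε := by linarith
    have h3 : 2 * ((A + ε) * (B + ε)) * I ≤
        (B + ε) ^ 2 * (∫ y in a..b, y * p y ^ 2) + (A + ε) ^ 2 * ∫ y in a..b, y * q y ^ 2 := by
      rw [hI, ← intervalIntegral.integral_const_mul, ← intervalIntegral.integral_const_mul,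
        ← intervalIntegral.integral_const_mul,
        ← intervalIntegral.integral_add (i1.const_mul _) (i2.const_mul _)]
      apply intervalIntegral.integral_mono_on hab (i3.const_mul _)
        ((i1.const_mul _).add (i2.const_mul _))
      intro y hy
      have hy0 : 0 < y := lt_of_lt_of_le ha hy.1
      have h4 := sq_nonneg ((B + ε) * p y - (A + ε) * q y)
      nlinarith [mul_nonneg hy0.le h4]
    have h4 : (B + ε) ^ 2 * (∫ y in a..b, y * p y ^ 2) ≤ (B + ε) ^ 2 * (A + ε) ^ 2 := by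
      apply mul_le_mul_of_nonneg_left _ (sq_nonneg _)
      exact h1.trans (pow_le_pow_left₀ hA (by linarith) 2)
    have h5 : (A + ε) ^ 2 * (∫ y in a..b, y * q y ^ 2) ≤ (A + ε) ^ 2 * (B + ε) ^ 2 := by
      apply mul_le_mul_of_nonneg_left _ (sq_nonneg _)
      exact h2.trans (pow_le_pow_left₀ hB (by linarith) 2)
    have h6 : 0 < 2 * ((A + ε) * (B + ε)) := by positivity
    refine le_of_mul_le_mul_left ?_ h6
    nlinarith
  have hlim : Tendsto (fun ε : ℝ => (A + ε) * (B + ε)) (𝓝[>] 0) (𝓝 (A * B)) := by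
    have hc : Continuous fun ε : ℝ => (A + ε) * (B + ε) := by fun_prop
    have := (hc.tendsto 0).mono_left (nhdsWithin_le_nhds (s := Ioi 0))
    simpa using this
  exact ge_of_tendsto hlim (by filter_upwards [self_mem_nhdsWithin] with ε hε using key ε hε)

/-- the derivative of the trilinear form, after the integration by parts -/
noncomputable def TD (n l : Fin 3) (f ψ γ : V3) (y : ℝ) : ℝ :=
  ⟪Pp y f, tens n (Yp y ψ) (Dp l y γ)⟫_ℝ + ⟪Yp y f, tens n (Pp y ψ) (Dp l y γ)⟫_ℝ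
    - ⟪Dp l y f, tens n (Pp y ψ) (Yp y γ)⟫_ℝ - ⟪Pp y f, tens n (Dp l y ψ) (Yp y γ)⟫_ℝ

theorem derT (hs : SG) (hc : Cal) (n l : Fin 3) (f ψ γ : V3) {y : ℝ} (hy : 0 < y) :
    HasDerivAt (C3.T n l f ψ γ) (TD n l f ψ γ y) y := by
  have h1 := hc.dP n y hy ψ (fun s => Dp l s γ) (DY l y γ) (hs.dyd l y hy γ)
  have h2 := (deriv_Pp hy f).inner ℝ h1
  refine h2.congr_deriv ?_
  have h3 := hc.parts l (Pp y f) (tens n (Pp y ψ) (Yp y γ)) (fun k => Dp k y f)
    (fun k => tens n (Dp k y ψ) (Yp y γ) + tens n (Pp y ψ) (DY k y γ))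
    (fun k => weak_Pp k hy f) (fun k => hc.wP n k y hy ψ _ _ (hc.wYp k y hy γ))
  simp only [inner_add_right] at h3 ⊢
  unfold TD
  linarith

theorem contTD (hs : SG) (hc : Cal) (n l : Fin 3) (f ψ γ : V3) :
    ContinuousOn (TD n l f ψ γ) (Ioi 0) := by
  intro y hy
  have hy : 0 < y := hy
  have h1 := (deriv_Pp hy f).inner ℝ
    (hc.dY n y hy ψ (fun s => Dp l s γ) (DY l y γ) (hs.dyd l y hy γ))
  have h2 := (deriv_Yp hy f).inner ℝ
    (hc.dP n y hy ψ (fun s => Dp l s γ) (DY l y γ) (hs.dyd l y hy γ))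
  have h3 := (hs.dyd l y hy f).inner ℝ (hc.dP n y hy ψ (fun s => Yp s γ) _ (deriv_Yp hy γ))
  have h4 := (deriv_Pp hy f).inner ℝ (hc.dD n l y hy ψ (fun s => Yp s γ) _ (deriv_Yp hy γ))
  exact (((h1.add h2).sub h3).sub h4).continuousAt.continuousWithinAt

theorem contN1 (hs : SG) (hc : Cal) (n l : Fin 3) (f γ : V3) :
    ContinuousOn (fun y => ‖tens n (Pp y f) (Dp l y γ)‖) (Ioi 0) := fun _ hy =>
  (RelC.derX hs hc n l f γ hy).continuousAt.norm.continuousWithinAt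

theorem contN2 (hc : Cal) (n : Fin 3) (f γ : V3) :
    ContinuousOn (fun y => ‖tens n (Pp y f) (Yp y γ)‖) (Ioi 0) := fun _ hy =>
  (RelC.derZ hc n f γ hy).continuousAt.norm.continuousWithinAt

theorem contY (f : V3) : ContinuousOn (fun y => ‖Yp y f‖) (Ioi 0) := fun _ hy =>
  (deriv_Yp (show 0 < _ from hy) f).continuousAt.norm.continuousWithinAt

theorem contD (hs : SG) (l : Fin 3) (f : V3) : ContinuousOn (fun y => ‖Dp l y f‖) (Ioi 0) :=
  fun _ hy => (hs.dyd l _ hy f).continuousAt.norm.continuousWithinAt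

/-- the square function bounds, one at a time -/
theorem sq_Y (hs : SG) {Q : ℝ} {f : V3} {a b : ℝ} (ha : 0 < a) (hab : a ≤ b)
    (hq : ∫ y in a..b, y * (∑ j, ‖Dp j y f‖ ^ 2 + ‖Yp y f‖ ^ 2) ≤ Q * ‖f‖ ^ 2) :
    ∫ y in a..b, y * ‖Yp y f‖ ^ 2 ≤ Q * ‖f‖ ^ 2 := by
  refine le_trans ?_ hq
  apply intervalIntegral.integral_mono_on hab
    (RelC.ii (continuousOn_id.mul ((contY f).pow 2)) ha hab)
    (RelC.ii (continuousOn_id.mul (RelC.contq hs f)) ha hab)
  intro y hy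
  have hy0 : 0 < y := lt_of_lt_of_le ha hy.1
  have : 0 ≤ ∑ j, ‖Dp j y f‖ ^ 2 := Finset.sum_nonneg fun _ _ => sq_nonneg _
  have h2 : ‖Yp y f‖ ^ 2 ≤ ∑ j, ‖Dp j y f‖ ^ 2 + ‖Yp y f‖ ^ 2 := by linarith
  exact mul_le_mul_of_nonneg_left h2 hy0.le

theorem sq_D (hs : SG) (l : Fin 3) {Q : ℝ} {f : V3} {a b : ℝ} (ha : 0 < a) (hab : a ≤ b)
    (hq : ∫ y in a..b, y * (∑ j, ‖Dp j y f‖ ^ 2 + ‖Yp y f‖ ^ 2) ≤ Q * ‖f‖ ^ 2) :
    ∫ y in a..b, y * ‖Dp l y f‖ ^ 2 ≤ Q * ‖f‖ ^ 2 := by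
  refine le_trans ?_ hq
  apply intervalIntegral.integral_mono_on hab
    (RelC.ii (continuousOn_id.mul ((contD hs l f).pow 2)) ha hab)
    (RelC.ii (continuousOn_id.mul (RelC.contq hs f)) ha hab)
  intro y hy
  have hy0 : 0 < y := lt_of_lt_of_le ha hy.1
  have h1 : ‖Dp l y f‖ ^ 2 ≤ ∑ j, ‖Dp j y f‖ ^ 2 :=
    Finset.single_le_sum (f := fun j => ‖Dp j y f‖ ^ 2) (fun _ _ => sq_nonneg _)
      (Finset.mem_univ l)
  have : 0 ≤ ‖Yp y f‖ ^ 2 := sq_nonneg _
  have h2 : ‖Dp l y f‖ ^ 2 ≤ ∑ j, ‖Dp j y f‖ ^ 2 + ‖Yp y f‖ ^ 2 := by linarith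
  exact mul_le_mul_of_nonneg_left h2 hy0.le

/-- the sum of three Carleson functions -/
theorem sq_sum {u : Fin 3 → ℝ → ℝ} (hu : ∀ m, ContinuousOn (u m) (Ioi 0)) {K : ℝ} {a b : ℝ}
    (ha : 0 < a) (hab : a ≤ b) (h : ∀ m, ∫ y in a..b, y * u m y ^ 2 ≤ K ^ 2) :
    ∫ y in a..b, y * (∑ m, u m y) ^ 2 ≤ (3 * K) ^ 2 := by
  have i : ∀ m, IntervalIntegrable (fun y => y * u m y ^ 2) volume a b := fun m =>
    RelC.ii (continuousOn_id.mul ((hu m).pow 2)) ha hab
  have h1 : ∫ y in a..b, y * (∑ m, u m y) ^ 2 ≤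
      ∫ y in a..b, (3 * (y * u 0 y ^ 2) + 3 * (y * u 1 y ^ 2) + 3 * (y * u 2 y ^ 2)) := by
    apply intervalIntegral.integral_mono_on hab
      (RelC.ii (continuousOn_id.mul ((continuousOn_finsetSum _ fun m _ => hu m).pow 2)) ha hab)
      ((((i 0).const_mul 3).add ((i 1).const_mul 3)).add ((i 2).const_mul 3))
    intro y hy
    have hy0 : 0 < y := lt_of_lt_of_le ha hy.1
    change y * (∑ m, u m y) ^ 2 ≤ _
    rw [Fin.sum_univ_three]
    have h2 := sq_nonneg (u 0 y - u 1 y)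
    have h3 := sq_nonneg (u 0 y - u 2 y)
    have h4 := sq_nonneg (u 1 y - u 2 y)
    nlinarith [mul_nonneg hy0.le h2, mul_nonneg hy0.le h3, mul_nonneg hy0.le h4]
  rw [intervalIntegral.integral_add (((i 0).const_mul 3).add ((i 1).const_mul 3))
    ((i 2).const_mul 3), intervalIntegral.integral_add ((i 0).const_mul 3) ((i 1).const_mul 3),
    intervalIntegral.integral_const_mul, intervalIntegral.integral_const_mul,
    intervalIntegral.integral_const_mul] at h1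
  have h0' := h 0
  have h1' := h 1
  have h2' := h 2
  nlinarith

end TBC

open TBC in
theorem stTB (hs : SG) (hc : Cal) (hq : StSq) : StTB := by
  obtain ⟨Q, hQ, hq⟩ := hq
  refine ⟨2 + 8 * √Q, by positivity, ?_⟩
  intro n l f ψ γ N a b ha hab hγ
  have hN := hγ.nn
  have hQs : √Q ^ 2 = Q := Real.sq_sqrt hQ.le
  have hcT := C3.contT hs hc n l f ψ γ
  have hcD := contTD hs hc n l f ψ γ
  -- the integration by parts in `y`
  have hftc : ∫ y in a..b, (C3.T n l f ψ γ y + y * TD n l f ψ γ y) =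
      b * C3.T n l f ψ γ b - a * C3.T n l f ψ γ a := by
    refine intervalIntegral.integral_eq_sub_of_hasDerivAt
      (f := fun y => y * C3.T n l f ψ γ y) (fun y hy => ?_)
      ((RelC.ii hcT ha hab).add (RelC.ii (continuousOn_id.mul hcD) ha hab))
    rw [uIcc_of_le hab] at hy
    have hy0 : 0 < y := lt_of_lt_of_le ha hy.1
    have := (hasDerivAt_id y).mul (derT hs hc n l f ψ γ hy0)
    refine this.congr_deriv ?_
    simp only [id]
    ring
  have iT : IntervalIntegrable (fun y => C3.T n l f ψ γ y) volume a b := RelC.ii hcT ha hab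
  have iD : IntervalIntegrable (fun y => y * TD n l f ψ γ y) volume a b :=
    RelC.ii (continuousOn_id.mul hcD) ha hab
  rw [intervalIntegral.integral_add iT iD] at hftc
  -- the boundary terms
  have hbd : ∀ y, 0 < y → |y * C3.T n l f ψ γ y| ≤ N * (‖f‖ * ‖ψ‖) := by
    intro y hy
    rw [abs_mul, abs_of_pos hy]
    have h1 : |C3.T n l f ψ γ y| ≤ ‖f‖ * (N / y * ‖ψ‖) := by
      refine (abs_real_inner_le_norm _ _).trans ?_
      apply mul_le_mul (norm_Pp_le hy f) _ (norm_nonneg _) (norm_nonneg _)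
      exact (norm_tens_right_le n _ (hγ.bx l y hy)).trans
        (mul_le_mul_of_nonneg_left (norm_Pp_le hy ψ) (by positivity))
    calc y * |C3.T n l f ψ γ y| ≤ y * (‖f‖ * (N / y * ‖ψ‖)) := by gcongr
      _ = _ := by field_simp
  -- the four terms
  have k0 : ∫ y in a..b, y * (‖Yp y ψ‖ * ∑ m, ‖tens m (Pp y f) (Dp l y γ)‖) ≤
      (√Q * ‖ψ‖) * (3 * (N * ‖f‖)) :=
    cs_int (contY ψ) (continuousOn_finsetSum _ fun m _ => contN1 hs hc m l f γ) ha hab
      (by positivity) (by positivity)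
      (by rw [mul_pow, hQs]; exact sq_Y hs ha hab (hq ψ a b ha hab))
      (sq_sum (fun m => contN1 hs hc m l f γ) ha hab fun m => by
        rw [mul_pow]; exact hγ.cx m l f a b ha hab)
  have k1 : ∫ y in a..b, y * (‖Yp y f‖ * ‖tens n (Pp y ψ) (Dp l y γ)‖) ≤
      (√Q * ‖f‖) * (N * ‖ψ‖) :=
    cs_int (contY f) (contN1 hs hc n l ψ γ) ha hab (by positivity) (by positivity)
      (by rw [mul_pow, hQs]; exact sq_Y hs ha hab (hq f a b ha hab))
      (by rw [mul_pow]; exact hγ.cx n l ψ a b ha hab)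
  have k2 : ∫ y in a..b, y * (‖Dp l y f‖ * ‖tens n (Pp y ψ) (Yp y γ)‖) ≤
      (√Q * ‖f‖) * (N * ‖ψ‖) :=
    cs_int (contD hs l f) (contN2 hc n ψ γ) ha hab (by positivity) (by positivity)
      (by rw [mul_pow, hQs]; exact sq_D hs l ha hab (hq f a b ha hab))
      (by rw [mul_pow]; exact hγ.cy n ψ a b ha hab)
  have k3 : ∫ y in a..b, y * (‖Dp l y ψ‖ * ∑ m, ‖tens m (Pp y f) (Yp y γ)‖) ≤
      (√Q * ‖ψ‖) * (3 * (N * ‖f‖)) :=
    cs_int (contD hs l ψ) (continuousOn_finsetSum _ fun m _ => contN2 hc m f γ) ha hab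
      (by positivity) (by positivity)
      (by rw [mul_pow, hQs]; exact sq_D hs l ha hab (hq ψ a b ha hab))
      (sq_sum (fun m => contN2 hc m f γ) ha hab fun m => by
        rw [mul_pow]; exact hγ.cy m f a b ha hab)
  have i0 : IntervalIntegrable (fun y => y * (‖Yp y ψ‖ * ∑ m, ‖tens m (Pp y f) (Dp l y γ)‖))
      volume a b := RelC.ii (continuousOn_id.mul ((contY ψ).mul
        (continuousOn_finsetSum _ fun m _ => contN1 hs hc m l f γ))) ha hab
  have i1 : IntervalIntegrable (fun y => y * (‖Yp y f‖ * ‖tens n (Pp y ψ) (Dp l y γ)‖))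
      volume a b := RelC.ii (continuousOn_id.mul ((contY f).mul (contN1 hs hc n l ψ γ))) ha hab
  have i2 : IntervalIntegrable (fun y => y * (‖Dp l y f‖ * ‖tens n (Pp y ψ) (Yp y γ)‖))
      volume a b := RelC.ii (continuousOn_id.mul ((contD hs l f).mul (contN2 hc n ψ γ))) ha hab
  have i3 : IntervalIntegrable (fun y => y * (‖Dp l y ψ‖ * ∑ m, ‖tens m (Pp y f) (Yp y γ)‖))
      volume a b := RelC.ii (continuousOn_id.mul ((contD hs l ψ).mul
        (continuousOn_finsetSum _ fun m _ => contN2 hc m f γ))) ha hab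
  have hmain : |∫ y in a..b, y * TD n l f ψ γ y| ≤
      (√Q * ‖ψ‖) * (3 * (N * ‖f‖)) + (√Q * ‖f‖) * (N * ‖ψ‖) + (√Q * ‖f‖) * (N * ‖ψ‖) +
        (√Q * ‖ψ‖) * (3 * (N * ‖f‖)) := by
    refine (intervalIntegral.abs_integral_le_integral_abs hab).trans ?_
    have h1 : ∫ y in a..b, |y * TD n l f ψ γ y| ≤ ∫ y in a..b,
        (y * (‖Yp y ψ‖ * ∑ m, ‖tens m (Pp y f) (Dp l y γ)‖) +
          y * (‖Yp y f‖ * ‖tens n (Pp y ψ) (Dp l y γ)‖) +
          y * (‖Dp l y f‖ * ‖tens n (Pp y ψ) (Yp y γ)‖) +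
          y * (‖Dp l y ψ‖ * ∑ m, ‖tens m (Pp y f) (Yp y γ)‖)) := by
      apply intervalIntegral.integral_mono_on hab iD.abs (((i0.add i1).add i2).add i3)
      intro y hy
      have hy0 : 0 < y := lt_of_lt_of_le ha hy.1
      obtain ⟨B1, hB1⟩ := hc.bP y hy0 f
      obtain ⟨B2, hB2⟩ := hc.bY y hy0 ψ
      obtain ⟨B3, hB3⟩ := hc.bD l y hy0 ψ
      have e0 := hc.cs n (Pp y f) B1 (Yp y ψ) B2 hB1 hB2 (Dp l y γ)
      have e1 := abs_real_inner_le_norm (Yp y f) (tens n (Pp y ψ) (Dp l y γ))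
      have e2 := abs_real_inner_le_norm (Dp l y f) (tens n (Pp y ψ) (Yp y γ))
      have e3 := hc.cs n (Pp y f) B1 (Dp l y ψ) B3 hB1 hB3 (Yp y γ)
      rw [abs_mul, abs_of_pos hy0, ← mul_add, ← mul_add, ← mul_add]
      apply mul_le_mul_of_nonneg_left _ hy0.le
      unfold TD
      refine (abs_sub _ _).trans (add_le_add ((abs_sub _ _).trans
        (add_le_add ((abs_add_le _ _).trans (add_le_add e0 e1)) e2)) e3)
    refine h1.trans ?_
    rw [intervalIntegral.integral_add ((i0.add i1).add i2) i3,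
      intervalIntegral.integral_add (i0.add i1) i2, intervalIntegral.integral_add i0 i1]
    linarith
  have hb : 0 < b := lt_of_lt_of_le ha hab
  have e : ∫ y in a..b, ⟪Pp y f, tens n (Pp y ψ) (Dp l y γ)⟫_ℝ =
      b * C3.T n l f ψ γ b - a * C3.T n l f ψ γ a - ∫ y in a..b, y * TD n l f ψ γ y := by
    rw [← hftc]
    change _ = (∫ y in a..b, C3.T n l f ψ γ y) + _ - _
    rw [add_sub_cancel_right]
    rfl
  rw [e]
  have b1 := hbd b hb
  have b2 := hbd a ha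
  calc |b * C3.T n l f ψ γ b - a * C3.T n l f ψ γ a - ∫ y in a..b, y * TD n l f ψ γ y|
      ≤ |b * C3.T n l f ψ γ b| + |a * C3.T n l f ψ γ a| + |∫ y in a..b, y * TD n l f ψ γ y| :=
        (abs_sub _ _).trans (add_le_add (abs_sub _ _) le_rfl)
    _ ≤ N * (‖f‖ * ‖ψ‖) + N * (‖f‖ * ‖ψ‖) + ((√Q * ‖ψ‖) * (3 * (N * ‖f‖)) +
        (√Q * ‖f‖) * (N * ‖ψ‖) + (√Q * ‖f‖) * (N * ‖ψ‖) + (√Q * ‖ψ‖) * (3 * (N * ‖f‖))) :=
        add_le_add (add_le_add b1 b2) hmain
    _ = _ := by ring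

end Pool.Agent.TF
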