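import Pool.Agent.TF.C.CC
import Pool.Agent.TF.C.Cal
import Pool.Agent.TF.C.Sq
import Pool.Agent.TF.C.Rel
import Pool.Agent.TF.C.C1
import Pool.Agent.TF.C.C2
import Pool.Agent.TF.C.TB
import Pool.Agent.TF.C.Id
import Pool.Agent.TF.Semi

/-!
# Block C: assembly
-/

set_option autoImplicit false

namespace Pool.Agent.TF

theorem stC1_of (hs : SG) : StC1 := stC1 hs (cal hs) (stSq hs)

theorem stC2_of (hs : SG) : StC2 := stC2 (stBx hs) (stRel hs (cal hs) (stSq hs))

theorem stC3_of (hs : SG) : StC3 :=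
  stC3 hs (cal hs) (stC2_of hs) (stTB hs (cal hs) (stSq hs)) (stId hs (cal hs))

/-- (CC), from the Poisson semigroup -/
theorem stCC_of (hs : SG) : StCC := stCC (stC1_of hs) (stC2_of hs) (stC3_of hs)

/-- (CC) -/
theorem cc_ok : StCC := stCC_of sg_ok

end Pool.Agent.TF
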