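import Pool.Agent.TF.C.Tri

/-!
# Weak derivatives of products; the Poisson curves
-/

set_option autoImplicit false

namespace Pool.Agent.TF

open MeasureTheory Set Filter Topology Pool.Agent.TO Pool.Agent.TB Pool.Agent.TC Pool.Agent.TP
open scoped ENNReal NNReal Real InnerProductSpace SchwartzMap LineDeriv

/-! ### weak derivatives -/

theorem mb_schwartz (ψ : 𝓢(E3, E3)) (n : Fin 3) :
    MB (fun x => (ψ x) n) (SchwartzMap.seminorm ℝ 0 0 ψ) where
  cont := (EuclideanSpace.proj (𝕜 := ℝ) n).continuous.comp ψ.continuous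
  le := fun x => by
    refine ((Real.norm_eq_abs _).symm.le.trans (PiLp.norm_apply_le (ψ x) n)).trans ?_
    exact SchwartzMap.norm_le_seminorm ℝ ψ x

theorem tens_emb (n : Fin 3) (ψ : 𝓢(E3, E3)) (g : V3) :
    tens n (emb ψ) g = mulV (mb_schwartz ψ n) g := by
  apply Lp.ext
  filter_upwards [coe_tens_left n (bd_emb ψ) g, coe_mulV (mb_schwartz ψ n) g,
    ψ.coeFn_toLp 2 (volume : Measure E3)] with x h1 h2 h3
  rw [h1, h2, emb_apply, h3]

theorem tendsto_tensR {n : Fin 3} {H : ℕ → V3} {H0 g : V3} {A : ℝ} (h : Tendsto H atTop (𝓝 H0))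
    (hg : Bd g A) : Tendsto (fun m => tens n (H m) g) atTop (𝓝 (tens n H0 g)) := by
  rw [tendsto_iff_norm_sub_tendsto_zero] at h ⊢
  refine squeeze_zero (fun m => norm_nonneg _) (fun m => ?_) (by simpa using h.const_mul A)
  rw [← tens_sub_left n _ _ hg]
  exact norm_tens_right_le n _ hg

theorem tens_left_symm (n : Fin 3) {H : V3} {A : ℝ} (hA : Bd H A) (a b : V3) :
    ⟪a, tens n H b⟫_ℝ = ⟪tens n H a, b⟫_ℝ := by
  rw [L2.inner_def, L2.inner_def]
  apply integral_congr_ae
  filter_upwards [coe_tens_left n hA a, coe_tens_left n hA b] with x h1 h2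
  rw [h1, h2, inner_smul_left, inner_smul_right]
  rfl

/-- the product rule for weak derivatives -/
theorem weak_tens {n k : Fin 3} {H G : V3} {dH dG : Fin 3 → V3} {A A' : ℝ}
    (hH : ∀ k, IsWeakDeriv k H (dH k)) (hG : ∀ k, IsWeakDeriv k G (dG k)) (hA : Bd G A)
    (hA' : Bd (dG k) A') :
    IsWeakDeriv k (tens n H G) (tens n (dH k) G + tens n H (dG k)) := by
  obtain ⟨ψ, h1, h2⟩ := exists_seq_H1 hH
  have l1 := tendsto_tensR (n := n) h1 hA
  have l2 := (tendsto_tensR (n := n) (h2 k) hA).add (tendsto_tensR (n := n) h1 hA')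
  refine weak_of_tendsto l1 l2 fun m => ?_
  rw [tens_emb, tens_emb, tens_emb]
  refine weak_mulV _ _ (fun x => ?_) hG
  have g2 := line_schwartz (ψ m) k x
  unfold HasLineDerivAt at g2 ⊢
  exact ((EuclideanSpace.proj (𝕜 := ℝ) n).hasFDerivAt.comp_hasDerivAt (0:ℝ) g2)

/-- integration by parts for the trilinear form -/
theorem ibp_tens {n k : Fin 3} {F H G : V3} {dF dH dG : Fin 3 → V3} {A A' : ℝ}
    (hF : ∀ k, IsWeakDeriv k F (dF k))
    (hH : ∀ k, IsWeakDeriv k H (dH k)) (hG : ∀ k, IsWeakDeriv k G (dG k)) (hA : Bd G A)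
    (hA' : Bd (dG k) A') :
    ⟪dF k, tens n H G⟫_ℝ + ⟪F, tens n (dH k) G⟫_ℝ + ⟪F, tens n H (dG k)⟫_ℝ = 0 := by
  have h := weak_parts (g := tens n H G)
    (dg := fun k => tens n (dH k) G + tens n H (dG k)) (k := k) hF (weak_tens hH hG hA hA')
  rw [h, inner_add_right]
  ring

theorem weak_tensL {n l : Fin 3} {H G dG : V3} {dH : Fin 3 → V3} {A A' : ℝ}
    (hH : ∀ k, IsWeakDeriv k H (dH k)) (hA : Bd H A) (hA' : Bd (dH l) A')
    (hG : IsWeakDeriv l G dG) :
    IsWeakDeriv l (tens n H G) (tens n (dH l) G + tens n H dG) := by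
  rw [weak_iff]
  intro φ
  have h1 : ∀ k, IsWeakDeriv k (emb φ) (emb (∂_{ee k} φ)) := fun k =>
    weak_of_line (φ.memLp 2 (volume : Measure E3)) ((∂_{ee k} φ).memLp 2 (volume : Measure E3))
      (line_schwartz φ k)
  have h2 := weak_parts (g := G) (dg := fun _ => dG) (k := l)
    (fun k => weak_tens (n := n) hH h1 (bd_emb φ) (bd_emb (∂_{ee k} φ))) hG
  rw [inner_add_left] at h2
  rw [inner_add_right, tens_left_symm n hA, tens_left_symm n hA', tens_left_symm n hA]
  linarith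

theorem deriv_shift {T : ℝ → V3} {T' : V3} {a y : ℝ} (h : HasDerivAt T T' (y - a)) :
    HasDerivAt (fun s => T (s - a)) T' y := by
  have h2 : HasDerivAt (fun s : ℝ => s - a) 1 y := (hasDerivAt_id y).sub_const a
  have h3 := h.scomp y h2
  rw [one_smul] at h3
  exact h3

/-! ### the Poisson curves -/

section curves

variable (hs : SG) {y : ℝ}

include hs

theorem Dp_half (j : Fin 3) (hy : 0 < y) (f : V3) : Dp j y f = Pp (y / 2) (Dp j (y / 2) f) := by
  have h := hs.dp j (y / 2) (y / 2) (by linarith) (by linarith) f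
  rw [add_halves] at h
  rw [h]
  exact cvO_comm _ _ _

theorem Yp_half (hy : 0 < y) (f : V3) : Yp y f = Pp (y / 2) (Yp (y / 2) f) := by
  have h := hs.yp (y / 2) (y / 2) (by linarith) (by linarith) f
  rw [add_halves] at h
  rw [h]
  exact cvO_comm _ _ _

theorem DDp_half (i j : Fin 3) (hy : 0 < y) (f : V3) :
    DDp i j y f = Dp i (y / 2) (Dp j (y / 2) f) := by
  have h := hs.dd i j (y / 2) (y / 2) (by linarith) (by linarith) f
  rw [add_halves] at h
  exact h

theorem YYp_half (hy : 0 < y) (f : V3) : YYp y f = Yp (y / 2) (Yp (y / 2) f) := by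
  have h := hs.yy (y / 2) (y / 2) (by linarith) (by linarith) f
  rw [add_halves] at h
  exact h

/-- the weak derivatives of `∂_y P_y f` -/
theorem weak_Yp (l : Fin 3) (hy : 0 < y) (f : V3) :
    IsWeakDeriv l (Yp y f) (Dp l (y / 2) (Yp (y / 2) f)) := by
  rw [Yp_half hs hy]
  exact weak_Pp l (by linarith) _

theorem bd_Dp_two (j : Fin 3) (hy : 0 < y) (f : V3) :
    Bd (Dp j y f) (cP (y / 2) * (8 / y * ‖f‖)) := by
  rw [Dp_half hs j hy]
  refine bd_mono (bd_Pp_two (by linarith) _) ?_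
  apply mul_le_mul_of_nonneg_left _ (cP_nonneg _)
  refine (norm_Dp_le j (by linarith) f).trans (le_of_eq ?_)
  field_simp; ring

theorem bd_Yp_two (hy : 0 < y) (f : V3) : Bd (Yp y f) (cP (y / 2) * (8 / y * ‖f‖)) := by
  rw [Yp_half hs hy]
  refine bd_mono (bd_Pp_two (by linarith) _) ?_
  apply mul_le_mul_of_nonneg_left _ (cP_nonneg _)
  refine (norm_Yp_le (by linarith) f).trans (le_of_eq ?_)
  field_simp; ring

theorem bdD_P (hy : 0 < y) (f : V3) : BdD (fun s => Pp s f) (Yp y f) y := by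
  have hy2 : 0 < y / 2 := by linarith
  have h1 : HasDerivAt (fun s => Pp (s - y / 2) f) (Yp (y / 2) f) y := by
    refine deriv_shift (T := fun s => Pp s f) ?_
    rw [sub_half]
    exact deriv_Pp hy2 f
  have h2 := bdD_Pp hy2 h1
  rw [Yp_half hs hy]
  refine h2.congr ?_
  filter_upwards [lt_mem_nhds (show y / 2 < y by linarith)] with s h3
  rw [← hs.pp (y / 2) (s - y / 2) hy2 (by linarith)]
  congr 2
  ring

theorem bdD_Y (hy : 0 < y) (f : V3) : BdD (fun s => Yp s f) (YYp y f) y := by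
  have hy2 : 0 < y / 2 := by linarith
  have h1 : HasDerivAt (fun s => Yp (s - y / 2) f) (YYp (y / 2) f) y := by
    refine deriv_shift (T := fun s => Yp s f) ?_
    rw [sub_half]
    exact deriv_Yp hy2 f
  have h2 := bdD_Pp hy2 h1
  have e : YYp y f = Pp (y / 2) (YYp (y / 2) f) := by
    have h3 : ∀ s, s ∈ Ioi (y / 2) → Yp s f = Pp (y / 2) (Yp (s - y / 2) f) := by
      intro s h3
      have h3' : y / 2 < s := h3
      have h4 := hs.yp (s - y / 2) (y / 2) (by linarith) hy2 f
      rw [sub_add_cancel] at h4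
      rw [h4]
      exact cvO_comm _ _ _
    have h4 : HasDerivAt (fun s => Pp (y / 2) (Yp (s - y / 2) f)) (Pp (y / 2) (YYp (y / 2) f)) y :=
      (Pp (y / 2)).hasFDerivAt.comp_hasDerivAt y h1
    have h5 : HasDerivAt (fun s => Yp s f) (Pp (y / 2) (YYp (y / 2) f)) y := by
      refine h4.congr_of_eventuallyEq ?_
      filter_upwards [lt_mem_nhds (show y / 2 < y by linarith)] with s h6
      exact h3 s h6
    exact (deriv_Yp hy f).unique h5
  rw [e]
  refine h2.congr ?_
  filter_upwards [lt_mem_nhds (show y / 2 < y by linarith)] with s h3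
  have h4 := hs.yp (s - y / 2) (y / 2) (by linarith) hy2 f
  rw [sub_add_cancel] at h4
  rw [h4]
  exact cvO_comm _ _ _

theorem bdD_D (j : Fin 3) (hy : 0 < y) (f : V3) :
    BdD (fun s => Dp j s f) (Dp j (y / 2) (Yp (y / 2) f)) y := by
  have hy2 : 0 < y / 2 := by linarith
  have hy4 : 0 < y / 2 / 2 := by linarith
  have h1 : HasDerivAt (fun s => Dp j (s - y / 2) f) (Dp j (y / 2 / 2) (Yp (y / 2 / 2) f)) y := by
    refine deriv_shift (T := fun s => Dp j s f) ?_
    rw [sub_half]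
    exact hs.dyd j (y / 2) hy2 f
  have h2 := bdD_Pp hy2 h1
  have h3 : ∀ s, y / 2 < s → Dp j s f = Pp (y / 2) (Dp j (s - y / 2) f) := by
    intro s h3
    have h4 := hs.dp j (s - y / 2) (y / 2) (by linarith) hy2 f
    rw [sub_add_cancel] at h4
    rw [h4]
    exact cvO_comm _ _ _
  have e : Dp j (y / 2) (Yp (y / 2) f) = Pp (y / 2) (Dp j (y / 2 / 2) (Yp (y / 2 / 2) f)) := by
    have h4 : HasDerivAt (fun s => Pp (y / 2) (Dp j (s - y / 2) f))
        (Pp (y / 2) (Dp j (y / 2 / 2) (Yp (y / 2 / 2) f))) y :=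
      (Pp (y / 2)).hasFDerivAt.comp_hasDerivAt y h1
    have h5 : HasDerivAt (fun s => Dp j s f)
        (Pp (y / 2) (Dp j (y / 2 / 2) (Yp (y / 2 / 2) f))) y := by
      refine h4.congr_of_eventuallyEq ?_
      filter_upwards [lt_mem_nhds (show y / 2 < y by linarith)] with s h6
      exact h3 s h6
    exact (hs.dyd j y hy f).unique h5
  rw [e]
  refine h2.congr ?_
  filter_upwards [lt_mem_nhds (show y / 2 < y by linarith)] with s h6
  exact h3 s h6

end curves

end Pool.Agent.TF
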